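import Pool.Agent.Helper43.V7.Cls

/-! Project V7. The decision for the exponents at most ten. -/

set_option autoImplicit false

namespace Pool.Agent.Helper43.V7

open Pool.Agent.Helper75.WC

theorem cls2 {L : List ℕ} (hL : L.length = 1)
    (hd : 2 ∣ ∑ e ∈ Finset.range 2, e * ent (0 :: L) e) (hc : Nat43 2 (ent (0 :: L))) :
    ∃ c ∈ cs2, c.L = 0 :: L := by
  rcases cls_of (n := 2) (cs := cs2) (sp := []) (by norm_num) (by decide +kernel)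
    (by decide +kernel) hL hd hc with h | h
  · exact h
  · exact absurd h List.not_mem_nil

theorem cls3 {L : List ℕ} (hL : L.length = 2)
    (hd : 3 ∣ ∑ e ∈ Finset.range 3, e * ent (0 :: L) e) (hc : Nat43 3 (ent (0 :: L))) :
    ∃ c ∈ cs3, c.L = 0 :: L := by
  rcases cls_of (n := 3) (cs := cs3) (sp := []) (by norm_num) (by decide +kernel)
    (by decide +kernel) hL hd hc with h | h
  · exact h
  · exact absurd h List.not_mem_nil

theorem cls4 {L : List ℕ} (hL : L.length = 3)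
    (hd : 4 ∣ ∑ e ∈ Finset.range 4, e * ent (0 :: L) e) (hc : Nat43 4 (ent (0 :: L))) :
    ∃ c ∈ cs4, c.L = 0 :: L := by
  rcases cls_of (n := 4) (cs := cs4) (sp := []) (by norm_num) (by decide +kernel)
    (by decide +kernel) hL hd hc with h | h
  · exact h
  · exact absurd h List.not_mem_nil

theorem cls5 {L : List ℕ} (hL : L.length = 4)
    (hd : 5 ∣ ∑ e ∈ Finset.range 5, e * ent (0 :: L) e) (hc : Nat43 5 (ent (0 :: L))) :
    ∃ c ∈ cs5, c.L = 0 :: L := by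
  rcases cls_of (n := 5) (cs := cs5) (sp := []) (by norm_num) (by decide +kernel)
    (by decide +kernel) hL hd hc with h | h
  · exact h
  · exact absurd h List.not_mem_nil

theorem cls6 {L : List ℕ} (hL : L.length = 5)
    (hd : 6 ∣ ∑ e ∈ Finset.range 6, e * ent (0 :: L) e) (hc : Nat43 6 (ent (0 :: L))) :
    ∃ c ∈ cs6, c.L = 0 :: L := by
  rcases cls_of (n := 6) (cs := cs6) (sp := []) (by norm_num) (by decide +kernel)
    (by decide +kernel) hL hd hc with h | h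
  · exact h
  · exact absurd h List.not_mem_nil

theorem cls7 {L : List ℕ} (hL : L.length = 6)
    (hd : 7 ∣ ∑ e ∈ Finset.range 7, e * ent (0 :: L) e) (hc : Nat43 7 (ent (0 :: L))) :
    ∃ c ∈ cs7, c.L = 0 :: L := by
  rcases cls_of (n := 7) (cs := cs7) (sp := []) (by norm_num) (by decide +kernel)
    (by decide +kernel) hL hd hc with h | h
  · exact h
  · exact absurd h List.not_mem_nil

/-- the special types of the exponent 8 -/
def sp8 : List (List ℕ) :=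
  [[0, 1, 3, 0, 1, 1, 0, 0],
   [0, 0, 0, 1, 1, 0, 3, 1],
   [0, 1, 2, 0, 1, 0, 0, 1],
   [0, 1, 0, 0, 1, 0, 2, 1],
   [0, 0, 2, 1, 1, 1, 0, 0],
   [0, 0, 0, 1, 1, 1, 2, 0],
   [0, 1, 1, 0, 2, 1, 0, 0],
   [0, 0, 0, 1, 2, 0, 1, 1],
   [0, 1, 0, 0, 0, 1, 3, 0],
   [0, 0, 3, 1, 0, 0, 0, 1]]

/-- the types of the exponent 8 with a common divisor -/
def com8 : List (List ℕ) :=
  [[0, 0, 1, 0, 1, 0, 3, 0],
   [0, 0, 3, 0, 1, 0, 1, 0],
   [0, 0, 4, 0, 0, 0, 0, 0],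
   [0, 0, 4, 0, 2, 0, 0, 0],
   [0, 0, 0, 0, 2, 0, 4, 0],
   [0, 0, 0, 0, 0, 0, 4, 0]]

theorem cls8 {L : List ℕ} (hL : L.length = 7)
    (hd : 8 ∣ ∑ e ∈ Finset.range 8, e * ent (0 :: L) e) (hc : Nat43 8 (ent (0 :: L))) :
    (∃ c ∈ cs8, c.L = 0 :: L) ∨ 0 :: L ∈ sp8 ∨ 0 :: L ∈ com8 := by
  rcases cls_of (n := 8) (cs := cs8) (sp := sp8 ++ com8) (by norm_num) (by decide +kernel)
    (by decide +kernel) hL hd hc with h | h
  · exact Or.inl h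
  · exact Or.inr (List.mem_append.1 h)

/-- the special types of the exponent 9 -/
def sp9 : List (List ℕ) :=
  [[0, 1, 1, 0, 0, 3, 0, 0, 0],
   [0, 1, 0, 0, 0, 1, 0, 3, 0],
   [0, 3, 1, 0, 1, 0, 0, 0, 0],
   [0, 0, 3, 0, 1, 0, 0, 0, 1],
   [0, 0, 0, 0, 3, 0, 0, 1, 1],
   [0, 0, 0, 0, 0, 1, 0, 1, 3],
   [0, 1, 1, 1, 3, 0, 0, 0, 0],
   [0, 1, 3, 0, 0, 1, 1, 0, 0],
   [0, 3, 0, 1, 0, 1, 0, 1, 0],
   [0, 0, 1, 0, 1, 0, 1, 0, 3],
   [0, 0, 0, 1, 1, 0, 0, 3, 1],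
   [0, 0, 0, 0, 0, 3, 1, 1, 1],
   [0, 1, 0, 3, 0, 0, 0, 0, 1],
   [0, 1, 0, 0, 0, 0, 3, 0, 1],
   [0, 0, 1, 3, 0, 0, 0, 1, 0],
   [0, 0, 1, 0, 0, 0, 3, 1, 0],
   [0, 0, 0, 3, 1, 1, 0, 0, 0],
   [0, 0, 0, 0, 1, 1, 3, 0, 0],
   [0, 1, 1, 1, 1, 0, 0, 0, 1],
   [0, 1, 1, 1, 0, 1, 0, 1, 0],
   [0, 1, 1, 0, 1, 1, 1, 0, 0],
   [0, 1, 0, 0, 0, 1, 1, 1, 1],
   [0, 0, 1, 0, 1, 0, 1, 1, 1],
   [0, 0, 0, 1, 1, 1, 0, 1, 1],
   [0, 1, 0, 2, 1, 0, 0, 1, 0],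
   [0, 0, 1, 0, 0, 1, 2, 0, 1]]

/-- the types of the exponent 9 with a common divisor -/
def com9 : List (List ℕ) :=
  [[0, 0, 0, 1, 0, 0, 4, 0, 0],
   [0, 0, 0, 4, 0, 0, 1, 0, 0],
   [0, 0, 0, 6, 0, 0, 0, 0, 0],
   [0, 0, 0, 0, 0, 0, 6, 0, 0]]

theorem cls9 {L : List ℕ} (hL : L.length = 8)
    (hd : 9 ∣ ∑ e ∈ Finset.range 9, e * ent (0 :: L) e) (hc : Nat43 9 (ent (0 :: L))) :
    (∃ c ∈ cs9, c.L = 0 :: L) ∨ 0 :: L ∈ sp9 ∨ 0 :: L ∈ com9 := by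
  rcases cls_of (n := 9) (cs := cs9) (sp := sp9 ++ com9) (by norm_num) (by decide +kernel)
    (by decide +kernel) hL hd hc with h | h
  · exact Or.inl h
  · exact Or.inr (List.mem_append.1 h)

theorem cls10 {L : List ℕ} (hL : L.length = 9)
    (hd : 10 ∣ ∑ e ∈ Finset.range 10, e * ent (0 :: L) e) (hc : Nat43 10 (ent (0 :: L))) :
    ∃ c ∈ cs10, c.L = 0 :: L := by
  rcases cls_of (n := 10) (cs := cs10) (sp := []) (by norm_num) (by decide +kernel)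
    (by decide +kernel) hL hd hc with h | h
  · exact h
  · exact absurd h List.not_mem_nil

end Pool.Agent.Helper43.V7
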