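import Pool.Agent.Helper43.V7.Dec
import Pool.Agent.Helper48.V7.Step8iv
import Pool.Agent.Helper48.V7.Step9
import Pool.Agent.Helper73.V7.Nine

/-! Project V7. The types with the natural condition for the exponents at most ten are in the list:
the assembly. -/

set_option autoImplicit false

namespace Pool.Agent.Helper43.V7

open IntermediateField MvPolynomial Pool.Agent.Helper75.WC Pool.Agent.Helper35.V7

/-- A certificate for a special type: the line `e0` is moved to infinity, `p` is the list of the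
exponents of the other components. -/
structure Sp where
  L : List ℕ
  e0 : ℕ
  kind : ℕ
  t : ℕ
  p : List ℕ

/-- the degrees after the line `e0` is moved to infinity -/
def Sp.D (c : Sp) : List ℕ := c.L.set c.e0 0

/-- the conditions for all kinds: `n` is the exponent, `k` the number of the components -/
def Sp.base (n k : ℕ) (c : Sp) : Prop :=
  c.t.Coprime n ∧ c.e0 < n ∧ ent c.L c.e0 = 1 ∧ (∀ i < k, ent c.p i < n) ∧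
    ∀ e < n, (∀ i < k, e ≠ ent c.p i) → ent c.D e = 0

instance (n k : ℕ) (c : Sp) : Decidable (c.base n k) := by unfold Sp.base; infer_instance

/-- the exponent and the degree of the component `i` -/
def Sp.comp (n : ℕ) (c : Sp) (i r d : ℕ) : Prop :=
  (c.t * ent c.p i) % n = r ∧ ent c.D (ent c.p i) ≤ d

instance (n : ℕ) (c : Sp) (i r d : ℕ) : Decidable (c.comp n i r d) := by
  unfold Sp.comp; infer_instance

def Sp.ok8 (c : Sp) : Prop :=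
  c.kind = 0 ∧ c.base 8 2 ∧ c.comp 8 0 5 1 ∧ c.comp 8 1 6 3 ∨
    c.kind = 1 ∧ c.base 8 3 ∧ c.comp 8 0 5 1 ∧ c.comp 8 1 2 1 ∧ c.comp 8 2 4 2 ∨
    c.kind = 2 ∧ c.base 8 3 ∧ c.comp 8 0 7 1 ∧ c.comp 8 1 4 1 ∧ c.comp 8 2 2 2 ∨
    c.kind = 3 ∧ c.base 8 3 ∧ c.comp 8 0 5 1 ∧ c.comp 8 1 2 3 ∧ c.comp 8 2 4 1

def Sp.ok9 (c : Sp) : Prop :=
  c.kind = 0 ∧ c.base 9 2 ∧ c.comp 9 0 1 1 ∧ c.comp 9 1 3 3 ∨
    c.kind = 1 ∧ c.base 9 2 ∧ c.comp 9 0 1 3 ∧ c.comp 9 1 5 3 ∨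
    c.kind = 2 ∧ c.base 9 3 ∧ c.comp 9 0 1 1 ∧ c.comp 9 1 4 1 ∧ c.comp 9 2 3 2 ∨
    c.kind = 3 ∧ c.base 9 4 ∧ c.comp 9 0 2 1 ∧ c.comp 9 1 3 1 ∧ c.comp 9 2 4 3 ∧
      c.comp 9 3 8 1 ∧ ent c.D (ent c.p 2) + 2 * ent c.D (ent c.p 3) ≤ 3

instance (c : Sp) : Decidable c.ok8 := by unfold Sp.ok8; infer_instance
instance (c : Sp) : Decidable c.ok9 := by unfold Sp.ok9; infer_instance

/-- the special types of the exponent 8 -/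
def sps8 : List Sp := [
  ⟨[0, 0, 0, 1, 1, 0, 3, 1], 3, 3, 3, [7, 6, 4]⟩,
  ⟨[0, 1, 3, 0, 1, 1, 0, 0], 1, 3, 1, [5, 2, 4]⟩,
  ⟨[0, 0, 0, 1, 1, 1, 2, 0], 3, 2, 3, [5, 4, 6]⟩,
  ⟨[0, 0, 2, 1, 1, 1, 0, 0], 5, 2, 5, [3, 4, 2]⟩,
  ⟨[0, 1, 0, 0, 1, 0, 2, 1], 7, 2, 7, [1, 4, 6]⟩,
  ⟨[0, 1, 2, 0, 1, 0, 0, 1], 1, 2, 1, [7, 4, 2]⟩,
  ⟨[0, 0, 0, 1, 2, 0, 1, 1], 3, 1, 3, [7, 6, 4]⟩,
  ⟨[0, 1, 1, 0, 2, 1, 0, 0], 1, 1, 1, [5, 2, 4]⟩,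
  ⟨[0, 0, 3, 1, 0, 0, 0, 1], 3, 0, 3, [7, 2]⟩,
  ⟨[0, 1, 0, 0, 0, 1, 3, 0], 1, 0, 1, [5, 6]⟩]

/-- the special types of the exponent 9 -/
def sps9 : List Sp := [
  ⟨[0, 0, 0, 0, 0, 1, 0, 1, 3], 5, 1, 4, [7, 8]⟩,
  ⟨[0, 0, 0, 0, 3, 0, 0, 1, 1], 7, 1, 8, [8, 4]⟩,
  ⟨[0, 0, 3, 0, 1, 0, 0, 0, 1], 8, 1, 7, [4, 2]⟩,
  ⟨[0, 1, 0, 0, 0, 1, 0, 3, 0], 1, 1, 2, [5, 7]⟩,
  ⟨[0, 1, 1, 0, 0, 3, 0, 0, 0], 2, 1, 1, [1, 5]⟩,
  ⟨[0, 3, 1, 0, 1, 0, 0, 0, 0], 4, 1, 5, [2, 1]⟩,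
  ⟨[0, 0, 0, 0, 0, 3, 1, 1, 1], 8, 3, 8, [7, 6, 5, 1]⟩,
  ⟨[0, 0, 0, 1, 1, 0, 0, 3, 1], 4, 3, 7, [8, 3, 7, 5]⟩,
  ⟨[0, 0, 1, 0, 1, 0, 1, 0, 3], 2, 3, 5, [4, 6, 8, 7]⟩,
  ⟨[0, 1, 1, 1, 3, 0, 0, 0, 0], 1, 3, 1, [2, 3, 4, 8]⟩,
  ⟨[0, 1, 3, 0, 0, 1, 1, 0, 0], 5, 3, 2, [1, 6, 2, 4]⟩,
  ⟨[0, 3, 0, 1, 0, 1, 0, 1, 0], 7, 3, 4, [5, 3, 1, 2]⟩,
  ⟨[0, 0, 0, 0, 1, 1, 3, 0, 0], 4, 0, 2, [5, 6]⟩,
  ⟨[0, 0, 0, 3, 1, 1, 0, 0, 0], 5, 0, 7, [4, 3]⟩,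
  ⟨[0, 0, 1, 0, 0, 0, 3, 1, 0], 7, 0, 5, [2, 6]⟩,
  ⟨[0, 0, 1, 3, 0, 0, 0, 1, 0], 2, 0, 4, [7, 3]⟩,
  ⟨[0, 1, 0, 0, 0, 0, 3, 0, 1], 1, 0, 8, [8, 6]⟩,
  ⟨[0, 1, 0, 3, 0, 0, 0, 0, 1], 8, 0, 1, [1, 3]⟩,
  ⟨[0, 0, 0, 1, 1, 1, 0, 1, 1], 4, 3, 7, [8, 3, 7, 5]⟩,
  ⟨[0, 0, 1, 0, 1, 0, 1, 1, 1], 2, 3, 5, [4, 6, 8, 7]⟩,
  ⟨[0, 1, 0, 0, 0, 1, 1, 1, 1], 8, 3, 8, [7, 6, 5, 1]⟩,
  ⟨[0, 1, 1, 0, 1, 1, 1, 0, 0], 5, 3, 2, [1, 6, 2, 4]⟩,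
  ⟨[0, 1, 1, 1, 0, 1, 0, 1, 0], 7, 3, 4, [5, 3, 1, 2]⟩,
  ⟨[0, 1, 1, 1, 1, 0, 0, 0, 1], 1, 3, 1, [2, 3, 4, 8]⟩,
  ⟨[0, 0, 1, 0, 0, 1, 2, 0, 1], 2, 2, 8, [8, 5, 6]⟩,
  ⟨[0, 1, 0, 2, 1, 0, 0, 1, 0], 1, 2, 7, [4, 7, 3]⟩]

theorem sps8_ok : ∀ L ∈ sp8, ∃ c ∈ sps8, c.L = L ∧ c.ok8 := by decide +kernel

theorem sps9_ok : ∀ L ∈ sp9, ∃ c ∈ sps9, c.L = L ∧ c.ok9 := by decide +kernel

theorem com8_ok : ∀ L ∈ com8, ∀ e < 8, ent L e = 0 ∨ 2 ∣ e := by decide +kernel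

theorem com9_ok : ∀ L ∈ com9, ∀ e < 9, ent L e = 0 ∨ 3 ∣ e := by decide +kernel

variable {Ω R M : Type} [Field Ω] [IsAlgClosed Ω] [Field R] [Field M] [Algebra Ω R] [Algebra Ω M]
    [Algebra R M] [IsScalarTower Ω R M]

omit [IsAlgClosed Ω] [IsScalarTower Ω R M] in
theorem Sp.move {n k : ℕ} {c : Sp} (h : c.base n k) (H : Rep Ω R M n (ent c.L))
    (hsum : n ∣ ∑ e ∈ Finset.range n, e * ent c.L e) : Nonempty (Rep Ω R M n (ent c.D)) := by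
  obtain ⟨-, he, h0, -, -⟩ := h
  unfold Sp.D
  rw [ent_set]
  exact H.move (Finset.mem_range.2 he) h0 hsum

/-- the special types of the exponent 8 -/
theorem Sp.sound8 [FiniteDimensional R M] {c : Sp} (h : c.ok8) (H : Rep Ω R M 8 (ent c.L))
    (hfin : Module.finrank R M = 8) (hsum : 8 ∣ ∑ e ∈ Finset.range 8, e * ent c.L e) :
    LstM Ω R M := by
  rcases h with ⟨-, hb, ⟨a1, a2⟩, a3, a4⟩ | ⟨-, hb, ⟨a1, a2⟩, ⟨a3, a4⟩, a5, a6⟩ |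
    ⟨-, hb, ⟨a1, a2⟩, ⟨a3, a4⟩, a5, a6⟩ | ⟨-, hb, ⟨a1, a2⟩, ⟨a3, a4⟩, a5, a6⟩
  · obtain ⟨H'⟩ := Sp.move hb H hsum
    obtain ⟨ht, -, -, hp, hD⟩ := hb
    refine H'.step8_i hfin ht (hp 0 (by norm_num)) (hp 1 (by norm_num)) a1 a3
      (fun e he h0 h1 => hD e he fun i hi => ?_) a2 a4
    interval_cases i
    · exact h0
    · exact h1
  · obtain ⟨H'⟩ := Sp.move hb H hsum
    obtain ⟨ht, -, -, hp, hD⟩ := hb
    refine H'.step8_ii hfin ht (hp 0 (by norm_num)) (hp 1 (by norm_num)) (hp 2 (by norm_num))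
      a1 a3 a5 (fun e he h0 h1 h2 => hD e he fun i hi => ?_) a2 a4 a6
    interval_cases i
    · exact h0
    · exact h1
    · exact h2
  · obtain ⟨H'⟩ := Sp.move hb H hsum
    obtain ⟨ht, -, -, hp, hD⟩ := hb
    refine H'.step8_iii hfin ht (hp 0 (by norm_num)) (hp 1 (by norm_num)) (hp 2 (by norm_num))
      a1 a3 a5 (fun e he h0 h1 h2 => hD e he fun i hi => ?_) a2 a4 a6
    interval_cases i
    · exact h0
    · exact h1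
    · exact h2
  · obtain ⟨H'⟩ := Sp.move hb H hsum
    obtain ⟨ht, -, -, hp, hD⟩ := hb
    refine H'.step8_iv hfin ht (hp 0 (by norm_num)) (hp 1 (by norm_num)) (hp 2 (by norm_num))
      a1 a3 a5 (fun e he h0 h1 h2 => hD e he fun i hi => ?_) a2 a4 a6
    interval_cases i
    · exact h0
    · exact h1
    · exact h2

/-- the rows of the types `(1, 2, 3, 4 ^ 3)` and `(1, 2, 3, 4, 8)` of the exponent 9 -/
def E8 (Ω R M : Type) [Field Ω] [Field R] [Field M] [Algebra Ω R] [Algebra Ω M]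
    [Algebra R M] : Prop :=
  ∀ {D : ℕ → ℕ} (_ : Rep Ω R M 9 D) {t e2 e3 k4 k8 : ℕ}, Module.finrank R M = 9 →
    t.Coprime 9 → e2 < 9 → e3 < 9 → k4 < 9 → k8 < 9 → (t * e2) % 9 = 2 → (t * e3) % 9 = 3 → (t * k4) % 9 = 4 → (t * k8) % 9 = 8 →
    (∀ e < 9, e ≠ e2 → e ≠ e3 → e ≠ k4 → e ≠ k8 → D e = 0) → D e2 ≤ 1 → D e3 ≤ 1 →
    D k4 + 2 * D k8 ≤ 3 → LstN Ω R M

/-- the special types of the exponent 9 -/
theorem Sp.sound9 [FiniteDimensional R M] [IsGalois R M] (hE : E8 Ω R M) {c : Sp} (h : c.ok9)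
    (H : Rep Ω R M 9 (ent c.L)) (hfin : Module.finrank R M = 9)
    (hsum : 9 ∣ ∑ e ∈ Finset.range 9, e * ent c.L e) : LstN Ω R M := by
  rcases h with ⟨-, hb, ⟨a1, a2⟩, a3, a4⟩ | ⟨-, hb, ⟨a1, a2⟩, a3, a4⟩ |
    ⟨-, hb, ⟨a1, a2⟩, ⟨a3, a4⟩, a5, a6⟩ | ⟨-, hb, ⟨a1, a2⟩, ⟨a3, a4⟩, ⟨a5, -⟩, ⟨a7, -⟩, a8⟩
  · obtain ⟨H'⟩ := Sp.move hb H hsum
    obtain ⟨ht, -, -, hp, hD⟩ := hb
    refine Or.inl (H'.step9_i hfin ht (hp 0 (by norm_num)) (hp 1 (by norm_num)) a1 a3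
      (fun e he h0 h1 => hD e he fun i hi => ?_) a2 a4)
    interval_cases i
    · exact h0
    · exact h1
  · obtain ⟨H'⟩ := Sp.move hb H hsum
    obtain ⟨ht, -, -, hp, hD⟩ := hb
    refine Or.inr (H'.step9_five hfin ht (hp 0 (by norm_num)) (hp 1 (by norm_num)) a1 a3
      (fun e he h0 h1 => hD e he fun i hi => ?_) a2 a4)
    interval_cases i
    · exact h0
    · exact h1
  · obtain ⟨H'⟩ := Sp.move hb H hsum
    obtain ⟨ht, -, -, hp, hD⟩ := hb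
    refine H'.step9_seven hfin ht (hp 0 (by norm_num)) (hp 1 (by norm_num)) (hp 2 (by norm_num))
      a1 a3 a5 (fun e he h0 h1 h2 => hD e he fun i hi => ?_) a2 a4 a6
    interval_cases i
    · exact h0
    · exact h1
    · exact h2
  · obtain ⟨H'⟩ := Sp.move hb H hsum
    obtain ⟨ht, -, -, hp, hD⟩ := hb
    refine hE H' hfin ht (hp 0 (by norm_num)) (hp 1 (by norm_num)) (hp 2 (by norm_num))
      (hp 3 (by norm_num)) a1 a3 a5 a7 (fun e he h0 h1 h2 h3 => hD e he fun i hi => ?_) a2 a4 a8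
    interval_cases i
    · exact h0
    · exact h1
    · exact h2
    · exact h3

/-- **All types with the natural condition.** -/
theorem lstN_rep [FiniteDimensional R M] [IsGalois R M] (hE : E8 Ω R M) {n : ℕ} (hn : 2 ≤ n)
    (hn' : n ≤ 10) {L : List ℕ} (hL : L.length = n - 1) (H : Rep Ω R M n (ent (0 :: L)))
    (hfin : Module.finrank R M = n) (hd : n ∣ ∑ e ∈ Finset.range n, e * ent (0 :: L) e)
    (hc : Nat43 n (ent (0 :: L))) : LstN Ω R M := by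
  have key : ∀ {cs : List Cert}, (∀ c ∈ cs, c.ok n) → (∃ c ∈ cs, c.L = 0 :: L) → LstN Ω R M := by
    rintro cs hcs ⟨c, hc, hcL⟩
    rw [← hcL] at H hd
    have h4 := Cert.sound (by omega) (hcs c hc) H hd
    rw [← hfin] at h4
    exact Or.inl h4.toM
  interval_cases n
  · exact key cs2_ok (cls2 hL hd hc)
  · exact key cs3_ok (cls3 hL hd hc)
  · exact key cs4_ok (cls4 hL hd hc)
  · exact key cs5_ok (cls5 hL hd hc)
  · exact key cs6_ok (cls6 hL hd hc)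
  · exact key cs7_ok (cls7 hL hd hc)
  · rcases cls8 hL hd hc with h | h | h
    · exact key cs8_ok h
    · obtain ⟨c, -, hcL, hok⟩ := sps8_ok _ h
      rw [← hcL] at H hd
      exact Or.inl (Sp.sound8 hok H hfin hd)
    · exact (H.no_common (by norm_num) hfin (g := 2) (by norm_num) (by norm_num)
        (com8_ok _ h)).elim
  · rcases cls9 hL hd hc with h | h | h
    · exact key cs9_ok h
    · obtain ⟨c, -, hcL, hok⟩ := sps9_ok _ h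
      rw [← hcL] at H hd
      exact Sp.sound9 hE hok H hfin hd
    · exact (H.no_common (by norm_num) hfin (g := 3) (by norm_num) (by norm_num)
        (com9_ok _ h)).elim
  · exact key cs10_ok (cls10 hL hd hc)

/-- the weighted sums of the type -/
theorem typ_fsum {n : ℕ} (hn : 0 < n) {r : ℕ} (d e : Fin r → ℕ) (k : ℕ) :
    ∑ j ∈ Finset.range n, ((k * j) % n) * ent (0 :: typ n d e) j =
      ∑ i, d i * ((k * e i) % n) := by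
  have h1 : ∀ j ∈ Finset.range n, ((k * j) % n) * ent (0 :: typ n d e) j =
      ∑ i, if e i % n = j then ((k * j) % n) * d i else 0 := by
    intro j hj
    rw [Finset.mem_range] at hj
    rw [ent_typ, ← Finset.sum_filter, ← Finset.mul_sum]
    by_cases h : j = 0
    · rw [h]
      simp
    · rw [if_neg (by omega)]
  rw [Finset.sum_congr rfl h1, Finset.sum_comm]
  refine Finset.sum_congr rfl fun i _ => ?_
  rw [Finset.sum_ite_eq, if_pos (Finset.mem_range.2 (Nat.mod_lt _ hn)), mul_comm]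
  congr 1
  rw [Nat.mul_mod, Nat.mod_mod, ← Nat.mul_mod]

/-- **The natural condition.** -/
theorem lstN_nat [FiniteDimensional R M] [IsGalois R M] (hE : E8 Ω R M) {n : ℕ}
    (hfin : Module.finrank R M = n) (hn' : n ≤ 10) {x y : R} {w : M} (hR : adjoin Ω {x, y} = ⊤)
    (hw : adjoin R {w} = ⊤) {r : ℕ} (d e : Fin r → ℕ) (f : Fin r → MvPolynomial (Fin 2) Ω)
    (hd : ∀ i, (f i).totalDegree ≤ d i) (hdvd : n ∣ ∑ i, d i * e i)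
    (hc : ∀ k < n, 2 * k ≠ n ∨ n = 2 → ∑ i, d i * ((k * e i) % n) ≤ 2 * n ∨
      ∑ i, d i * (((n - k) * e i) % n) ≤ 2 * n)
    (heq : w ^ n = ∏ i, aeval ![algebraMap R M x, algebraMap R M y] (f i) ^ e i) :
    LstN Ω R M := by
  have hn0 : 0 < n := by
    rw [← hfin]
    exact Module.finrank_pos
  rcases curve_ne hfin hR hw d e f hd heq with h | ⟨f', hd', hne, heq'⟩
  · rw [← hfin] at h
    exact Or.inl h.toM
  rcases Nat.lt_or_ge n 2 with h2 | h2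
  · have h1 : Module.finrank R M = 1 := by omega
    exact Or.inl (lst_one hR h1).toM
  obtain ⟨H⟩ := rep_of_curve hn0 hR hw d e f' hd' hne heq'
  refine lstN_rep hE h2 hn' (typ_length d e) H hfin (typ_dvd hn0 d e hdvd) fun k hk hk' => ?_
  rw [typ_fsum hn0, typ_fsum hn0]
  exact hc k hk hk'

/-- **The natural condition**, `x`, `y`, `w` are elements of `M`. -/
theorem lstN_natM [FiniteDimensional R M] [IsGalois R M]
    (x y w : M) (hR : ∀ r : R, algebraMap R M r ∈ adjoin Ω {x, y}) (hM : adjoin Ω {x, y, w} = ⊤)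
    (hE : E8 Ω (adjoin Ω {x, y} : IntermediateField Ω M) M) {n : ℕ}
    (hfin : Module.finrank (adjoin Ω {x, y} : IntermediateField Ω M) M = n) (hn' : n ≤ 10)
    {r : ℕ} (d e : Fin r → ℕ) (f : Fin r → MvPolynomial (Fin 2) Ω)
    (hd : ∀ i, (f i).totalDegree ≤ d i) (hdvd : n ∣ ∑ i, d i * e i)
    (hc : ∀ k < n, 2 * k ≠ n ∨ n = 2 → ∑ i, d i * ((k * e i) % n) ≤ 2 * n ∨
      ∑ i, d i * (((n - k) * e i) % n) ≤ 2 * n)
    (heq : w ^ n = ∏ i, aeval ![x, y] (f i) ^ e i) : LstN Ω R M := by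
  obtain ⟨h1, h2, x', y', hx, hy, hB, hw⟩ := toB x y w hR hM
  have e1 : algebraMap (adjoin Ω {x, y} : IntermediateField Ω M) M x' = x := hx
  have e2 : algebraMap (adjoin Ω {x, y} : IntermediateField Ω M) M y' = y := hy
  refine LstN.of_le (B := (adjoin Ω {x, y} : IntermediateField Ω M)) (fun r => ⟨⟨_, hR r⟩, rfl⟩)
    ?_
  exact lstN_nat hE hfin hn' hB hw d e f hd hdvd hc (by rw [e1, e2]; exact heq)

end Pool.Agent.Helper43.V7
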