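import Pool.Agent.Helper43.V7.List

/-! Project V7. All types with the natural condition for the exponents at most ten: each type has a
certificate or is in the list of the special types. -/

set_option autoImplicit false

namespace Pool.Agent.Helper43.V7

open Pool.Agent.Helper75.WC

/-- the weighted sum of a list -/
def dot : List ℕ → List ℕ → ℕ
  | w :: ws, d :: L => w * d + dot ws L
  | _, _ => 0

/-- all lists `L` of the length of `ws` with `dot ws L ≤ s` -/
def wv : List ℕ → ℕ → List (List ℕ)
  | [], _ => [[]]
  | w :: ws, s => (List.range (s / w + 1)).flatMap fun d => (wv ws (s - w * d)).map (List.cons d)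

theorem mem_wv : ∀ (ws : List ℕ) (s : ℕ) (L : List ℕ), L.length = ws.length →
    (∀ w ∈ ws, 0 < w) → dot ws L ≤ s → L ∈ wv ws s
  | [], s, L, h, _, _ => by
    rw [List.length_nil, List.length_eq_zero_iff] at h
    rw [h]
    simp [wv]
  | w :: ws, s, L, h, hp, hs => by
    rw [List.length_cons] at h
    obtain ⟨d, L', rfl⟩ := List.exists_cons_of_length_eq_add_one h
    rw [List.length_cons] at h
    have hs' : w * d + dot ws L' ≤ s := hs
    have hw : 0 < w := hp w (by simp)
    simp only [wv, List.mem_flatMap, List.mem_map, List.mem_range]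
    refine ⟨d, ?_, L', mem_wv ws (s - w * d) L' (by omega) (fun v hv => hp v (by simp [hv]))
      (by omega), rfl⟩
    rw [Nat.lt_succ_iff, Nat.le_div_iff_mul_le hw, mul_comm]
    omega

theorem sum_dot : ∀ (L : List ℕ) (f : ℕ → ℕ),
    ∑ e ∈ Finset.range L.length, f e * ent L e = dot ((List.range L.length).map f) L
  | [], f => by simp [dot]
  | d :: L, f => by
    rw [List.length_cons, Finset.sum_range_succ', List.range_succ_eq_map, List.map_cons,
      List.map_map]
    have h1 : ent (d :: L) 0 = d := by simp [ent]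
    have h2 : ∀ e, ent (d :: L) (e + 1) = ent L e := fun e => by simp [ent]
    simp only [h1, h2]
    rw [sum_dot L (fun e => f (e + 1))]
    exact add_comm _ _

/-- the weights `(k * e) % n`, `e = 1, ..., n - 1` -/
def wk (n k : ℕ) : List ℕ := (List.range (n - 1)).map fun e => (k * (e + 1)) % n

theorem sum_wk {n : ℕ} (hn : 0 < n) (k : ℕ) {L : List ℕ} (hL : L.length = n - 1) :
    ∑ e ∈ Finset.range n, ((k * e) % n) * ent (0 :: L) e = dot (wk n k) L := by
  obtain ⟨m, rfl⟩ : ∃ m, n = m + 1 := ⟨n - 1, by omega⟩
  rw [Nat.add_sub_cancel] at hL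
  subst hL
  have h1 := sum_dot (0 :: L) (fun e => (k * e) % (L.length + 1))
  rw [List.length_cons] at h1
  have h2 : wk (L.length + 1) k =
      (List.range L.length).map ((fun e => (k * e) % (L.length + 1)) ∘ Nat.succ) := rfl
  rw [h1, List.range_succ_eq_map, List.map_cons, List.map_map, h2]
  change _ * 0 + _ = _
  rw [mul_zero, zero_add]

/-- the natural condition: `h ^ {2, 0} h ^ {0, 2} = 0` for all characters whose order is not two -/
def Nat43 (n : ℕ) (D : ℕ → ℕ) : Prop :=
  ∀ k < n, 2 * k ≠ n ∨ n = 2 → ∑ e ∈ Finset.range n, ((k * e) % n) * D e ≤ 2 * n ∨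
    ∑ e ∈ Finset.range n, (((n - k) * e) % n) * D e ≤ 2 * n

/-- the condition for lists -/
def condB (n : ℕ) (L : List ℕ) : Bool :=
  (List.range n).all fun k => (2 * k == n && n != 2) || decide (dot (wk n k) L ≤ 2 * n) ||
    decide (dot (wk n (n - k)) L ≤ 2 * n)

/-- the test -/
def testB (n : ℕ) (cs : List Cert) (sp : List (List ℕ)) (L : List ℕ) : Bool :=
  dot (wk n 1) L % n != 0 || !condB n L || (cs.any fun c => c.L == 0 :: L) ||
    sp.any fun S => S == 0 :: L

theorem cls_of {n : ℕ} (hn : 2 ≤ n) {cs : List Cert} {sp : List (List ℕ)}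
    (h1 : ∀ L ∈ wv (wk n 1) (2 * n), testB n cs sp L = true)
    (h2 : ∀ L ∈ wv (wk n (n - 1)) (2 * n), testB n cs sp L = true) {L : List ℕ}
    (hL : L.length = n - 1) (hd : n ∣ ∑ e ∈ Finset.range n, e * ent (0 :: L) e)
    (hc : Nat43 n (ent (0 :: L))) : (∃ c ∈ cs, c.L = 0 :: L) ∨ 0 :: L ∈ sp := by
  have hlen : ∀ k, L.length = (wk n k).length := fun k => by
    rw [hL]
    unfold wk
    rw [List.length_map, List.length_range]
  have ht : testB n cs sp L = true := by
    rcases hc 1 (by omega) (by omega) with h | h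
    · refine h1 L (mem_wv _ _ _ (hlen 1) (fun w hw => ?_) ?_)
      · unfold wk at hw
        rw [List.mem_map] at hw
        obtain ⟨e, he, rfl⟩ := hw
        rw [List.mem_range] at he
        rw [one_mul, Nat.mod_eq_of_lt (by omega)]
        omega
      · rwa [← sum_wk (by omega) 1 hL]
    · refine h2 L (mem_wv _ _ _ (hlen (n - 1)) (fun w hw => ?_) ?_)
      · unfold wk at hw
        rw [List.mem_map] at hw
        obtain ⟨e, he, rfl⟩ := hw
        rw [List.mem_range] at he
        by_contra h0
        have h3 : ((n - 1) * (e + 1)) % n = 0 := by omega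
        have h4 : n ∣ e + 1 := by
          have h5 : (n - 1).Coprime n := by
            have h6 := Nat.coprime_self_sub_right (m := 1) (n := n) (by omega)
            rw [Nat.coprime_comm]
            exact (h6.2 (Nat.coprime_one_right n))
          exact (Nat.Coprime.dvd_of_dvd_mul_left (Nat.coprime_comm.1 h5)
            (Nat.dvd_of_mod_eq_zero h3))
        have := Nat.le_of_dvd (by omega) h4
        omega
      · rwa [← sum_wk (by omega) (n - 1) hL]
  unfold testB at ht
  rw [Bool.or_eq_true, Bool.or_eq_true, Bool.or_eq_true] at ht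
  rcases ht with ((ht | ht) | ht) | ht
  · exfalso
    rw [bne_iff_ne] at ht
    apply ht
    have h3 : ∑ e ∈ Finset.range n, ((1 * e) % n) * ent (0 :: L) e =
        ∑ e ∈ Finset.range n, e * ent (0 :: L) e := by
      refine Finset.sum_congr rfl fun e he => ?_
      rw [one_mul, Nat.mod_eq_of_lt (Finset.mem_range.1 he)]
    rw [← sum_wk (by omega) 1 hL, ← Nat.dvd_iff_mod_eq_zero, h3]
    exact hd
  · exfalso
    rw [Bool.not_eq_true', ← Bool.not_eq_true] at ht
    apply ht
    unfold condB
    rw [List.all_eq_true]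
    intro k hk
    rw [List.mem_range] at hk
    by_cases h3 : 2 * k ≠ n ∨ n = 2
    · rcases hc k hk h3 with h | h
      · rw [sum_wk (by omega) k hL] at h
        simp [h]
      · rw [sum_wk (by omega) (n - k) hL] at h
        simp [h]
    · push Not at h3
      have h4 : (2 * k == n) = true := by
        rw [beq_iff_eq]
        exact h3.1
      have h5 : (n != 2) = true := by
        rw [bne_iff_ne]
        exact h3.2
      rw [h4, h5]
      simp
  · left
    rw [List.any_eq_true] at ht
    obtain ⟨c, hc, h⟩ := ht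
    exact ⟨c, hc, eq_of_beq h⟩
  · right
    rw [List.any_eq_true] at ht
    obtain ⟨S, hS, h⟩ := ht
    rw [← eq_of_beq h]
    exact hS

end Pool.Agent.Helper43.V7
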