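import Pool.Agent.Helper43.V7.Asm
import Pool.Agent.Helper35.V7.CubicRow

/-! Project V7. The types with the natural condition for the exponents at most ten are in the list. -/

set_option autoImplicit false

namespace Pool.Agent.Helper43.V7

open IntermediateField MvPolynomial Pool.Agent.Helper75.WC Pool.Agent.Helper35.V7

variable {Ω R M : Type} [Field Ω] [IsAlgClosed Ω] [Field R] [Field M] [Algebra Ω R] [Algebra Ω M]
    [Algebra R M] [IsScalarTower Ω R M]

/-- the types `(1, 2, 3, 4 ^ 3)` and `(1, 2, 3, 4, 8)` -/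
theorem e8 [FiniteDimensional R M] [IsGalois R M] : E8 Ω R M := by
  intro D H t e2 e3 k4 k8 hfin ht he2 he3 hk4 hk8 h2 h3 h4 h8 hD hd2 hd3 hd4
  have n1 : e2 ≠ e3 := by rintro rfl; omega
  have n2 : e2 ≠ k4 := by rintro rfl; omega
  have n3 : e2 ≠ k8 := by rintro rfl; omega
  have n4 : e3 ≠ k4 := by rintro rfl; omega
  have n5 : e3 ≠ k8 := by rintro rfl; omega
  have n6 : k4 ≠ k8 := by rintro rfl; omega
  right
  refine H.cubicA hfin ht (fun e => if e = e2 then 1 else 0) (fun e => if e = e3 then 1 else 0)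
    (fun e => (if e = k4 then 1 else 0) + if e = k8 then 2 else 0) (fun e he => ?_) ?_ ?_ ?_
  · by_cases a2 : e = e2
    · right
      subst a2
      simp [h2, n1, n2, n3]
    by_cases a3 : e = e3
    · right
      subst a3
      simp [h3, a2, n4, n5]
    by_cases a4 : e = k4
    · right
      subst a4
      simp [h4, a2, a3, n6]
    by_cases a8 : e = k8
    · right
      subst a8
      simp [h8, a2, a3, a4]
    · exact Or.inl (hD e he a2 a3 a4 a8)
  · simp only [ite_mul, one_mul, zero_mul]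
    rw [Finset.sum_ite_eq', if_pos (Finset.mem_range.2 he2)]
    exact hd2
  · simp only [ite_mul, one_mul, zero_mul]
    rw [Finset.sum_ite_eq', if_pos (Finset.mem_range.2 he3)]
    exact hd3
  · simp only [add_mul, ite_mul, one_mul, zero_mul]
    rw [Finset.sum_add_distrib, Finset.sum_ite_eq', Finset.sum_ite_eq',
      if_pos (Finset.mem_range.2 hk4), if_pos (Finset.mem_range.2 hk8)]
    exact hd4

/-- **The natural condition**, `x`, `y`, `w` are elements of `M`. -/
theorem lstN_natM' [FiniteDimensional R M] [IsGalois R M]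
    (x y w : M) (hR : ∀ r : R, algebraMap R M r ∈ adjoin Ω {x, y}) (hM : adjoin Ω {x, y, w} = ⊤)
    {n : ℕ} (hfin : Module.finrank (adjoin Ω {x, y} : IntermediateField Ω M) M = n) (hn' : n ≤ 10)
    {r : ℕ} (d e : Fin r → ℕ) (f : Fin r → MvPolynomial (Fin 2) Ω)
    (hd : ∀ i, (f i).totalDegree ≤ d i) (hdvd : n ∣ ∑ i, d i * e i)
    (hc : ∀ k < n, 2 * k ≠ n ∨ n = 2 → ∑ i, d i * ((k * e i) % n) ≤ 2 * n ∨
      ∑ i, d i * (((n - k) * e i) % n) ≤ 2 * n)
    (heq : w ^ n = ∏ i, aeval ![x, y] (f i) ^ e i) : LstN Ω R M := by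
  obtain ⟨h1, h2, -⟩ := toB x y w hR hM
  exact lstN_natM x y w hR hM e8 hfin hn' d e f hd hdvd hc heq

end Pool.Agent.Helper43.V7
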