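import Pool.Agent.Helper75.WC.CurveCert

/-! Project V7. Certificates of all types with the natural condition, n <= 10 (kinds 0-3). -/

set_option autoImplicit false

namespace Pool.Agent.Helper43.V7

open Pool.Agent.Helper75.WC

/-- exponent 2 -/
def cs2 : List Cert :=
  [⟨[0, 0], 0, 0, 1, [1, 0, 0, 2], [], [], []⟩,
   ⟨[0, 2], 0, 0, 1, [1, 0, 0, 2], [], [0, 1], []⟩,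
   ⟨[0, 4], 0, 0, 1, [1, 0, 0, 2], [], [0, 1], []⟩]

theorem cs2_ok : ∀ c ∈ cs2, c.ok 2 := by decide +kernel

/-- exponent 3 -/
def cs3 : List Cert :=
  [⟨[0, 0, 0], 0, 0, 1, [1, 0, 0, 3], [], [], []⟩,
   ⟨[0, 0, 3], 0, 0, 1, [1, 1, 0, 3], [0, 0, 1], [0, 0, 1], []⟩,
   ⟨[0, 0, 6], 0, 0, 2, [1, 4, 0, 3], [0, 0, 1], [], []⟩,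
   ⟨[0, 1, 1], 0, 0, 1, [1, 0, 0, 3], [0, 0, 1], [0, 1, 1], []⟩,
   ⟨[0, 1, 4], 0, 0, 2, [1, 0, 0, 3], [0, 2], [0, 0, 1], []⟩,
   ⟨[0, 2, 2], 0, 0, 1, [1, 0, 0, 3], [0, 0, 1], [0, 1, 1], []⟩,
   ⟨[0, 3, 0], 0, 0, 1, [1, 0, 0, 3], [], [0, 1], []⟩,
   ⟨[0, 4, 1], 0, 0, 1, [1, 0, 0, 3], [0, 0, 2], [0, 1], []⟩,
   ⟨[0, 6, 0], 0, 0, 1, [1, 4, 0, 3], [0, 1], [], []⟩]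

theorem cs3_ok : ∀ c ∈ cs3, c.ok 3 := by decide +kernel

/-- exponent 4 -/
def cs4 : List Cert :=
  [⟨[0, 0, 0, 0], 0, 0, 1, [1, 0, 0, 4], [], [], []⟩,
   ⟨[0, 0, 0, 4], 0, 0, 3, [1, 0, 0, 4], [], [0, 0, 0, 1], []⟩,
   ⟨[0, 0, 0, 8], 0, 0, 3, [1, 2, 2, 0], [], [0, 0, 0, 1], []⟩,
   ⟨[0, 0, 1, 2], 0, 0, 1, [1, 1, 2, 0], [0, 0, 1], [0, 0, 0, 3], []⟩,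
   ⟨[0, 0, 1, 6], 0, 0, 3, [1, 1, 2, 0], [0, 0, 1], [0, 0, 0, 1], []⟩,
   ⟨[0, 0, 2, 0], 0, 0, 1, [1, 0, 0, 4], [0, 0, 1], [], []⟩,
   ⟨[0, 0, 2, 4], 0, 0, 3, [1, 0, 0, 4], [0, 0, 1], [0, 0, 0, 1], []⟩,
   ⟨[0, 0, 3, 2], 0, 0, 3, [1, 2, 2, 0], [], [0, 0, 2, 1], []⟩,
   ⟨[0, 0, 4, 0], 0, 0, 1, [1, 2, 2, 0], [], [0, 0, 2], []⟩,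
   ⟨[0, 1, 0, 1], 0, 0, 1, [1, 0, 0, 4], [0, 0, 0, 1], [0, 1, 0, 1], []⟩,
   ⟨[0, 1, 0, 5], 0, 0, 3, [1, 1, 2, 0], [0, 1], [0, 1, 0, 1], []⟩,
   ⟨[0, 1, 1, 3], 0, 0, 3, [1, 1, 2, 0], [0, 1], [0, 1, 2, 1], []⟩,
   ⟨[0, 1, 2, 1], 0, 0, 1, [1, 1, 2, 0], [0, 0, 0, 1], [0, 1, 2, 1], []⟩,
   ⟨[0, 2, 0, 2], 0, 0, 1, [1, 0, 0, 4], [0, 0, 0, 1], [0, 1, 0, 1], []⟩,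
   ⟨[0, 2, 1, 0], 0, 0, 1, [1, 0, 0, 4], [0, 0, 1], [0, 1], []⟩,
   ⟨[0, 2, 3, 0], 0, 0, 1, [1, 1, 0, 4], [0, 0, 1], [0, 1], []⟩,
   ⟨[0, 3, 1, 1], 0, 0, 1, [1, 1, 2, 0], [0, 0, 1], [0, 1, 0, 3], []⟩,
   ⟨[0, 4, 0, 0], 0, 0, 1, [1, 0, 0, 4], [], [0, 1], []⟩,
   ⟨[0, 4, 2, 0], 0, 0, 1, [1, 0, 0, 4], [0, 0, 1], [0, 1], []⟩,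
   ⟨[0, 5, 0, 1], 0, 0, 1, [1, 1, 2, 0], [0, 0, 0, 1], [0, 1, 0, 1], []⟩,
   ⟨[0, 6, 1, 0], 0, 0, 1, [1, 1, 2, 0], [0, 0, 1], [0, 1], []⟩,
   ⟨[0, 8, 0, 0], 0, 0, 1, [1, 2, 2, 0], [], [0, 1], []⟩]

theorem cs4_ok : ∀ c ∈ cs4, c.ok 4 := by decide +kernel

/-- exponent 5 -/
def cs5 : List Cert :=
  [⟨[0, 0, 0, 0, 0], 0, 0, 1, [1, 0, 0, 5], [], [], []⟩,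
   ⟨[0, 0, 0, 0, 5], 0, 0, 4, [1, 1, 3, 1], [], [0, 0, 0, 0, 1], []⟩,
   ⟨[0, 0, 0, 1, 3], 0, 0, 2, [1, 1, 0, 5], [0, 0, 0, 0, 1], [0, 0, 0, 1], []⟩,
   ⟨[0, 0, 0, 2, 1], 0, 0, 1, [1, 0, 0, 5], [0, 0, 0, 1], [0, 0, 0, 0, 4], []⟩,
   ⟨[0, 0, 0, 4, 2], 0, 0, 2, [1, 0, 0, 5], [0, 0, 0, 0, 1], [0, 0, 0, 1], []⟩,
   ⟨[0, 0, 0, 5, 0], 0, 0, 2, [1, 1, 3, 1], [], [0, 0, 0, 1], []⟩,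
   ⟨[0, 0, 1, 0, 2], 0, 0, 1, [1, 0, 0, 5], [0, 0, 0, 0, 1], [0, 0, 2, 0, 1], []⟩,
   ⟨[0, 0, 1, 1, 0], 0, 0, 1, [1, 0, 0, 5], [0, 0, 0, 1], [0, 0, 2], []⟩,
   ⟨[0, 0, 1, 3, 1], 0, 0, 2, [1, 0, 0, 5], [0, 0, 1, 0, 1], [0, 0, 1, 1], []⟩,
   ⟨[0, 0, 2, 0, 4], 0, 0, 4, [1, 0, 0, 5], [0, 0, 1], [0, 0, 0, 0, 1], []⟩,
   ⟨[0, 0, 2, 1, 2], 0, 0, 4, [1, 0, 0, 5], [0, 0, 1], [0, 0, 0, 2, 1], []⟩,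
   ⟨[0, 0, 2, 2, 0], 0, 0, 1, [1, 0, 0, 5], [0, 0, 0, 1], [0, 0, 2], []⟩,
   ⟨[0, 0, 3, 0, 1], 0, 0, 3, [1, 0, 0, 5], [0, 0, 0, 0, 2], [0, 0, 1, 0, 1], []⟩,
   ⟨[0, 0, 5, 0, 0], 0, 0, 3, [1, 1, 3, 1], [], [0, 0, 1], []⟩,
   ⟨[0, 1, 0, 0, 1], 0, 0, 1, [1, 0, 0, 5], [0, 0, 0, 0, 1], [0, 1, 0, 0, 1], []⟩,
   ⟨[0, 1, 0, 2, 2], 0, 0, 2, [1, 0, 0, 5], [0, 0, 0, 0, 1], [0, 2, 0, 1], []⟩,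
   ⟨[0, 1, 0, 3, 0], 0, 0, 1, [1, 1, 0, 5], [0, 0, 0, 1], [0, 1], []⟩,
   ⟨[0, 1, 1, 0, 3], 0, 0, 4, [1, 0, 0, 5], [0, 1, 1], [0, 1, 0, 0, 1], []⟩,
   ⟨[0, 1, 1, 1, 1], 0, 0, 1, [1, 0, 0, 5], [0, 0, 0, 1, 1], [0, 1, 2, 0, 1], []⟩,
   ⟨[0, 1, 2, 0, 0], 0, 0, 1, [1, 0, 0, 5], [0, 2], [0, 0, 2], []⟩,
   ⟨[0, 1, 3, 1, 0], 0, 0, 3, [1, 0, 0, 5], [0, 1, 0, 1], [0, 0, 1, 1], []⟩,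
   ⟨[0, 2, 0, 0, 2], 0, 0, 1, [1, 0, 0, 5], [0, 0, 0, 0, 1], [0, 1, 0, 0, 1], []⟩,
   ⟨[0, 2, 0, 1, 0], 0, 0, 1, [1, 0, 0, 5], [0, 0, 0, 1], [0, 1], []⟩,
   ⟨[0, 2, 1, 2, 0], 0, 0, 1, [1, 0, 0, 5], [0, 0, 0, 1], [0, 1, 2], []⟩,
   ⟨[0, 2, 2, 0, 1], 0, 0, 3, [1, 0, 0, 5], [0, 1], [0, 0, 1, 0, 2], []⟩,
   ⟨[0, 2, 4, 0, 0], 0, 0, 3, [1, 0, 0, 5], [0, 1], [0, 0, 1], []⟩,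
   ⟨[0, 3, 0, 1, 1], 0, 0, 1, [1, 0, 0, 5], [0, 0, 0, 1, 1], [0, 1, 0, 0, 1], []⟩,
   ⟨[0, 3, 1, 0, 0], 0, 0, 1, [1, 0, 0, 5], [0, 0, 2], [0, 1, 1], []⟩,
   ⟨[0, 4, 0, 2, 0], 0, 0, 1, [1, 0, 0, 5], [0, 0, 0, 1], [0, 1], []⟩,
   ⟨[0, 5, 0, 0, 0], 0, 0, 1, [1, 1, 3, 1], [], [0, 1], []⟩]

theorem cs5_ok : ∀ c ∈ cs5, c.ok 5 := by decide +kernel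

/-- exponent 6 -/
def cs6 : List Cert :=
  [⟨[0, 0, 0, 0, 0, 0], 0, 0, 1, [1, 0, 0, 6], [], [], []⟩,
   ⟨[0, 0, 0, 0, 0, 6], 0, 0, 5, [1, 1, 3, 0], [], [0, 0, 0, 0, 0, 1], []⟩,
   ⟨[0, 0, 0, 0, 1, 4], 0, 0, 5, [1, 0, 0, 6], [0, 0, 0, 0, 2], [0, 0, 0, 0, 0, 1], []⟩,
   ⟨[0, 0, 0, 0, 2, 2], 0, 0, 5, [1, 1, 3, 0], [], [0, 0, 0, 0, 2, 1], []⟩,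
   ⟨[0, 0, 0, 0, 3, 0], 0, 0, 1, [1, 1, 0, 6], [0, 0, 0, 0, 1], [], []⟩,
   ⟨[0, 0, 0, 0, 6, 0], 0, 1, 5, [1, 4, 3, 0], [], [0, 0, 0, 0, 2], []⟩,
   ⟨[0, 0, 0, 1, 0, 3], 0, 0, 5, [1, 0, 0, 6], [0, 0, 0, 2], [0, 0, 0, 1, 0, 1], []⟩,
   ⟨[0, 0, 0, 1, 1, 1], 0, 0, 1, [1, 0, 0, 6], [0, 0, 0, 0, 1, 1], [0, 0, 0, 3, 0, 1], []⟩,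
   ⟨[0, 0, 0, 1, 4, 1], 0, 1, 5, [1, 4, 3, 0], [], [0, 0, 0, 3, 2, 1], []⟩,
   ⟨[0, 0, 0, 2, 0, 0], 0, 0, 1, [1, 1, 3, 0], [], [0, 0, 0, 3], []⟩,
   ⟨[0, 0, 0, 2, 0, 6], 0, 1, 5, [1, 4, 3, 0], [], [0, 0, 0, 3, 0, 1], []⟩,
   ⟨[0, 0, 0, 2, 1, 4], 0, 1, 5, [1, 4, 3, 0], [], [0, 0, 0, 3, 2, 1], []⟩,
   ⟨[0, 0, 0, 2, 2, 2], 0, 1, 5, [1, 4, 3, 0], [], [0, 0, 0, 3, 2, 1], []⟩,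
   ⟨[0, 0, 0, 2, 3, 0], 0, 1, 5, [1, 4, 3, 0], [], [0, 0, 0, 3, 2], []⟩,
   ⟨[0, 0, 0, 3, 0, 3], 0, 1, 5, [1, 4, 3, 0], [], [0, 0, 0, 3, 0, 1], []⟩,
   ⟨[0, 0, 0, 3, 1, 1], 0, 1, 5, [1, 4, 3, 0], [], [0, 0, 0, 3, 2, 1], []⟩,
   ⟨[0, 0, 0, 4, 0, 0], 0, 1, 1, [1, 0, 1, 4], [0, 0, 0, 1], [0, 0, 0, 1], []⟩,
   ⟨[0, 0, 1, 0, 0, 2], 0, 0, 1, [1, 0, 0, 6], [0, 0, 0, 0, 0, 1], [0, 0, 2, 0, 0, 1], []⟩,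
   ⟨[0, 0, 1, 0, 1, 0], 0, 0, 1, [1, 0, 0, 6], [0, 0, 0, 0, 1], [0, 0, 2], []⟩,
   ⟨[0, 0, 1, 0, 4, 0], 0, 1, 5, [1, 4, 3, 0], [], [0, 0, 4, 0, 2], []⟩,
   ⟨[0, 0, 1, 1, 0, 5], 0, 1, 5, [1, 4, 3, 0], [], [0, 0, 4, 3, 0, 1], []⟩,
   ⟨[0, 0, 1, 1, 1, 3], 0, 1, 5, [1, 4, 3, 0], [], [0, 0, 4, 3, 2, 1], []⟩,
   ⟨[0, 0, 1, 1, 2, 1], 0, 1, 5, [1, 0, 1, 4], [0, 0, 2, 0, 1], [0, 0, 0, 3, 0, 1], []⟩,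
   ⟨[0, 0, 1, 2, 0, 2], 0, 1, 5, [1, 4, 3, 0], [], [0, 0, 4, 3, 0, 1], []⟩,
   ⟨[0, 0, 1, 2, 1, 0], 0, 1, 1, [1, 0, 1, 4], [0, 0, 1, 1, 1], [0, 0, 0, 1, 2], []⟩,
   ⟨[0, 0, 2, 0, 0, 4], 0, 0, 5, [1, 0, 0, 6], [0, 0, 1], [0, 0, 0, 0, 0, 1], []⟩,
   ⟨[0, 0, 2, 0, 1, 2], 0, 0, 5, [1, 0, 0, 6], [0, 0, 1], [0, 0, 0, 0, 2, 1], []⟩,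
   ⟨[0, 0, 2, 0, 2, 0], 0, 0, 1, [1, 0, 0, 6], [0, 0, 0, 0, 1], [0, 0, 2], []⟩,
   ⟨[0, 0, 2, 1, 0, 1], 0, 1, 1, [1, 0, 1, 4], [0, 0, 1, 1, 0, 1], [0, 0, 0, 1, 0, 3], []⟩,
   ⟨[0, 0, 3, 0, 0, 0], 0, 0, 1, [1, 1, 3, 0], [], [0, 0, 2], []⟩,
   ⟨[0, 0, 3, 2, 0, 0], 0, 1, 1, [1, 4, 3, 0], [], [0, 0, 2, 3], []⟩,
   ⟨[0, 0, 4, 0, 1, 0], 0, 1, 1, [1, 4, 3, 0], [], [0, 0, 2, 0, 4], []⟩,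
   ⟨[0, 0, 6, 0, 0, 0], 0, 1, 1, [1, 4, 3, 0], [], [0, 0, 2], []⟩,
   ⟨[0, 1, 0, 0, 0, 1], 0, 0, 1, [1, 0, 0, 6], [0, 0, 0, 0, 0, 1], [0, 1, 0, 0, 0, 1], []⟩,
   ⟨[0, 1, 0, 0, 3, 1], 0, 1, 5, [1, 0, 1, 4], [0, 1, 0, 0, 1], [0, 3, 0, 0, 0, 1], []⟩,
   ⟨[0, 1, 0, 1, 0, 4], 0, 1, 5, [1, 4, 3, 0], [], [0, 5, 0, 3, 0, 1], []⟩,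
   ⟨[0, 1, 0, 1, 1, 2], 0, 1, 5, [1, 4, 3, 0], [], [0, 5, 0, 3, 2, 1], []⟩,
   ⟨[0, 1, 0, 1, 2, 0], 0, 0, 1, [1, 0, 0, 6], [0, 0, 0, 0, 1], [0, 1, 0, 3], []⟩,
   ⟨[0, 1, 0, 2, 0, 1], 0, 1, 1, [1, 0, 1, 4], [0, 0, 0, 1, 0, 2], [0, 1, 0, 1, 0, 1], []⟩,
   ⟨[0, 1, 1, 0, 0, 3], 0, 0, 5, [1, 0, 0, 6], [0, 1, 1], [0, 1, 0, 0, 0, 1], []⟩,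
   ⟨[0, 1, 1, 0, 1, 1], 0, 0, 1, [1, 0, 0, 6], [0, 0, 0, 0, 1, 1], [0, 1, 2, 0, 0, 1], []⟩,
   ⟨[0, 1, 1, 1, 0, 0], 0, 0, 1, [1, 0, 0, 6], [0, 0, 0, 2], [0, 1, 2, 1], []⟩,
   ⟨[0, 1, 1, 3, 0, 0], 0, 1, 1, [1, 0, 1, 4], [0, 0, 1, 1], [0, 1, 0, 1], []⟩,
   ⟨[0, 1, 2, 1, 1, 0], 0, 1, 1, [1, 0, 1, 4], [0, 0, 1, 1, 1], [0, 1, 0, 1, 2], []⟩,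
   ⟨[0, 1, 3, 0, 0, 1], 0, 1, 1, [1, 0, 1, 4], [0, 0, 1, 0, 0, 1], [0, 1, 0, 0, 0, 3], []⟩,
   ⟨[0, 1, 4, 1, 0, 0], 0, 1, 1, [1, 4, 3, 0], [], [0, 1, 2, 3], []⟩,
   ⟨[0, 2, 0, 0, 0, 2], 0, 0, 1, [1, 0, 0, 6], [0, 0, 0, 0, 0, 1], [0, 1, 0, 0, 0, 1], []⟩,
   ⟨[0, 2, 0, 0, 1, 0], 0, 0, 1, [1, 0, 0, 6], [0, 0, 0, 0, 1], [0, 1], []⟩,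
   ⟨[0, 2, 0, 2, 1, 0], 0, 1, 1, [1, 0, 1, 4], [0, 0, 0, 1, 2], [0, 1, 0, 1], []⟩,
   ⟨[0, 2, 1, 0, 2, 0], 0, 0, 1, [1, 0, 0, 6], [0, 0, 0, 0, 1], [0, 1, 2], []⟩,
   ⟨[0, 2, 1, 1, 0, 1], 0, 1, 1, [1, 0, 1, 4], [0, 0, 1, 1, 0, 2], [0, 1, 0, 1, 0, 1], []⟩,
   ⟨[0, 2, 2, 0, 0, 0], 0, 0, 1, [1, 1, 3, 0], [], [0, 1, 2], []⟩,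
   ⟨[0, 2, 2, 2, 0, 0], 0, 1, 1, [1, 0, 1, 4], [0, 0, 1, 1], [0, 1, 0, 1], []⟩,
   ⟨[0, 3, 0, 0, 1, 1], 0, 0, 1, [1, 0, 0, 6], [0, 0, 0, 0, 1, 1], [0, 1, 0, 0, 0, 1], []⟩,
   ⟨[0, 3, 0, 1, 0, 0], 0, 0, 1, [1, 0, 0, 6], [0, 0, 0, 2], [0, 1, 0, 1], []⟩,
   ⟨[0, 3, 0, 3, 0, 0], 0, 1, 1, [1, 4, 3, 0], [], [0, 1, 0, 3], []⟩,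
   ⟨[0, 3, 1, 1, 1, 0], 0, 1, 1, [1, 0, 1, 4], [0, 0, 1, 1, 2], [0, 1, 0, 1], []⟩,
   ⟨[0, 4, 0, 0, 2, 0], 0, 0, 1, [1, 0, 0, 6], [0, 0, 0, 0, 1], [0, 1], []⟩,
   ⟨[0, 4, 0, 1, 0, 1], 0, 1, 1, [1, 4, 3, 0], [], [0, 1, 0, 3, 0, 5], []⟩,
   ⟨[0, 4, 1, 0, 0, 0], 0, 0, 1, [1, 0, 0, 6], [0, 0, 2], [0, 1], []⟩,
   ⟨[0, 4, 1, 2, 0, 0], 0, 1, 1, [1, 4, 3, 0], [], [0, 1, 2, 3], []⟩,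
   ⟨[0, 5, 0, 1, 1, 0], 0, 1, 1, [1, 4, 3, 0], [], [0, 1, 0, 3, 4], []⟩,
   ⟨[0, 6, 0, 0, 0, 0], 0, 0, 1, [1, 1, 3, 0], [], [0, 1], []⟩,
   ⟨[0, 6, 0, 2, 0, 0], 0, 1, 1, [1, 4, 3, 0], [], [0, 1, 0, 3], []⟩]

theorem cs6_ok : ∀ c ∈ cs6, c.ok 6 := by decide +kernel

/-- exponent 7 -/
def cs7 : List Cert :=
  [⟨[0, 0, 0, 0, 0, 0, 0], 0, 0, 1, [1, 0, 0, 7], [], [], []⟩,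
   ⟨[0, 0, 0, 0, 0, 2, 3], 0, 2, 1, [6, 5, 0], [0, 0, 0, 0, 0, 0, 1], [0, 0, 0, 0, 0, 1], []⟩,
   ⟨[0, 0, 0, 0, 0, 3, 1], 0, 0, 3, [1, 0, 0, 7], [0, 0, 0, 0, 0, 0, 2], [0, 0, 0, 0, 0, 1, 1], []⟩,
   ⟨[0, 0, 0, 0, 1, 0, 4], 0, 0, 6, [1, 0, 0, 7], [0, 0, 0, 0, 2], [0, 0, 0, 0, 0, 0, 1], []⟩,
   ⟨[0, 0, 0, 0, 1, 1, 2], 0, 0, 2, [1, 0, 0, 7], [0, 0, 0, 0, 0, 0, 1], [0, 0, 0, 0, 1, 3], []⟩,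
   ⟨[0, 0, 0, 0, 1, 2, 0], 0, 0, 1, [1, 0, 0, 7], [0, 0, 0, 0, 0, 1], [0, 0, 0, 0, 4], []⟩,
   ⟨[0, 0, 0, 0, 2, 0, 1], 0, 0, 2, [1, 0, 0, 7], [0, 0, 0, 0, 0, 0, 1], [0, 0, 0, 0, 1], []⟩,
   ⟨[0, 0, 0, 0, 2, 4, 0], 0, 0, 3, [1, 0, 0, 7], [0, 0, 0, 0, 1], [0, 0, 0, 0, 0, 1], []⟩,
   ⟨[0, 0, 0, 0, 4, 0, 2], 0, 0, 2, [1, 0, 0, 7], [0, 0, 0, 0, 0, 0, 1], [0, 0, 0, 0, 1], []⟩,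
   ⟨[0, 0, 0, 0, 4, 1, 0], 0, 0, 2, [1, 0, 0, 7], [0, 0, 0, 0, 0, 2], [0, 0, 0, 0, 1], []⟩,
   ⟨[0, 0, 0, 1, 0, 0, 3], 0, 0, 6, [1, 0, 0, 7], [0, 0, 0, 2], [0, 0, 0, 1, 0, 0, 1], []⟩,
   ⟨[0, 0, 0, 1, 0, 1, 1], 0, 0, 1, [1, 0, 0, 7], [0, 0, 0, 0, 0, 1, 1], [0, 0, 0, 3, 0, 0, 1], []⟩,
   ⟨[0, 0, 0, 1, 1, 0, 0], 0, 0, 1, [1, 0, 0, 7], [0, 0, 0, 0, 2], [0, 0, 0, 3, 1], []⟩,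
   ⟨[0, 0, 0, 1, 2, 2, 0], 0, 0, 3, [1, 0, 0, 7], [0, 0, 0, 0, 1], [0, 0, 0, 2, 0, 1], []⟩,
   ⟨[0, 0, 0, 1, 3, 0, 1], 0, 0, 2, [1, 0, 0, 7], [0, 0, 0, 1, 0, 0, 1], [0, 0, 0, 1, 1], []⟩,
   ⟨[0, 0, 0, 2, 0, 2, 2], 0, 2, 1, [3, 5, 6], [0, 0, 0, 1], [0, 0, 0, 0, 0, 1], [0, 0, 0, 0, 0, 0, 1]⟩,
   ⟨[0, 0, 0, 2, 0, 3, 0], 0, 2, 1, [5, 3, 0], [0, 0, 0, 0, 0, 1], [0, 0, 0, 1], []⟩,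
   ⟨[0, 0, 0, 2, 1, 1, 1], 0, 2, 1, [3, 5, 6], [0, 0, 0, 1], [0, 0, 0, 0, 1, 1], [0, 0, 0, 0, 1, 0, 1]⟩,
   ⟨[0, 0, 0, 2, 2, 0, 0], 0, 0, 2, [1, 0, 0, 7], [0, 0, 0, 1], [0, 0, 0, 1, 1], []⟩,
   ⟨[0, 0, 0, 3, 0, 0, 2], 0, 2, 1, [3, 6, 0], [0, 0, 0, 1], [0, 0, 0, 0, 0, 0, 1], []⟩,
   ⟨[0, 0, 0, 3, 0, 1, 0], 0, 0, 5, [1, 0, 0, 7], [0, 0, 0, 0, 0, 2], [0, 0, 0, 1, 0, 1], []⟩,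
   ⟨[0, 0, 1, 0, 0, 0, 2], 0, 0, 1, [1, 0, 0, 7], [0, 0, 0, 0, 0, 0, 1], [0, 0, 2, 0, 0, 0, 1], []⟩,
   ⟨[0, 0, 1, 0, 0, 1, 0], 0, 0, 1, [1, 0, 0, 7], [0, 0, 0, 0, 0, 1], [0, 0, 2], []⟩,
   ⟨[0, 0, 1, 0, 1, 3, 0], 0, 0, 3, [1, 0, 0, 7], [0, 0, 1, 0, 1], [0, 0, 1, 0, 0, 1], []⟩,
   ⟨[0, 0, 1, 0, 2, 1, 1], 2, 3, 2, [5], [0, 0, 0, 0, 0, 0, 1], [0, 0, 0, 0, 1, 3], []⟩,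
   ⟨[0, 0, 1, 0, 3, 0, 0], 0, 0, 2, [1, 0, 0, 7], [0, 0, 2], [0, 0, 1, 0, 1], []⟩,
   ⟨[0, 0, 1, 1, 0, 2, 1], 0, 2, 1, [3, 5, 6], [0, 0, 1, 1], [0, 0, 0, 0, 0, 1], [0, 0, 1, 0, 0, 0, 1]⟩,
   ⟨[0, 0, 1, 1, 1, 0, 2], 3, 3, 6, [4], [0, 0, 1], [0, 0, 0, 0, 3, 0, 1], []⟩,
   ⟨[0, 0, 1, 1, 1, 1, 0], 0, 0, 3, [1, 0, 0, 7], [0, 0, 1, 0, 1], [0, 0, 1, 2, 0, 1], []⟩,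
   ⟨[0, 0, 1, 2, 0, 0, 1], 0, 0, 4, [1, 0, 0, 7], [0, 0, 0, 1], [0, 0, 1, 0, 0, 0, 3], []⟩,
   ⟨[0, 0, 1, 4, 0, 0, 0], 0, 0, 5, [1, 0, 0, 7], [0, 0, 2], [0, 0, 0, 1], []⟩,
   ⟨[0, 0, 2, 0, 0, 0, 4], 0, 0, 6, [1, 0, 0, 7], [0, 0, 1], [0, 0, 0, 0, 0, 0, 1], []⟩,
   ⟨[0, 0, 2, 0, 0, 1, 2], 0, 0, 6, [1, 0, 0, 7], [0, 0, 1], [0, 0, 0, 0, 0, 2, 1], []⟩,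
   ⟨[0, 0, 2, 0, 0, 2, 0], 0, 0, 1, [1, 0, 0, 7], [0, 0, 0, 0, 0, 1], [0, 0, 2], []⟩,
   ⟨[0, 0, 2, 0, 1, 0, 1], 0, 0, 4, [1, 0, 0, 7], [0, 0, 0, 0, 0, 0, 2], [0, 0, 1, 0, 2], []⟩,
   ⟨[0, 0, 2, 1, 0, 0, 0], 0, 0, 1, [1, 0, 0, 7], [0, 0, 0, 2], [0, 0, 2], []⟩,
   ⟨[0, 0, 2, 2, 1, 0, 0], 0, 0, 4, [1, 0, 0, 7], [0, 0, 0, 1], [0, 0, 1, 0, 2], []⟩,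
   ⟨[0, 0, 3, 0, 2, 0, 0], 0, 2, 1, [2, 4, 0], [0, 0, 1], [0, 0, 0, 0, 1], []⟩,
   ⟨[0, 0, 3, 1, 0, 1, 0], 0, 0, 4, [1, 0, 0, 7], [0, 0, 0, 1, 0, 1], [0, 0, 1, 0, 0, 1], []⟩,
   ⟨[0, 0, 4, 0, 0, 0, 1], 0, 0, 4, [1, 0, 0, 7], [0, 0, 0, 0, 0, 0, 2], [0, 0, 1], []⟩,
   ⟨[0, 0, 4, 2, 0, 0, 0], 0, 0, 4, [1, 0, 0, 7], [0, 0, 0, 1], [0, 0, 1], []⟩,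
   ⟨[0, 1, 0, 0, 0, 0, 1], 0, 0, 1, [1, 0, 0, 7], [0, 0, 0, 0, 0, 0, 1], [0, 1, 0, 0, 0, 0, 1], []⟩,
   ⟨[0, 1, 0, 0, 0, 4, 0], 0, 0, 3, [1, 0, 0, 7], [0, 2], [0, 0, 0, 0, 0, 1], []⟩,
   ⟨[0, 1, 0, 0, 1, 2, 1], 1, 3, 3, [6], [0, 0, 0, 0, 1], [0, 0, 0, 0, 0, 1, 4], []⟩,
   ⟨[0, 1, 0, 0, 2, 0, 2], 0, 0, 2, [1, 0, 0, 7], [0, 0, 0, 0, 0, 0, 1], [0, 2, 0, 0, 1], []⟩,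
   ⟨[0, 1, 0, 0, 2, 1, 0], 0, 0, 2, [1, 0, 0, 7], [0, 0, 0, 0, 0, 2], [0, 2, 0, 0, 1], []⟩,
   ⟨[0, 1, 0, 1, 0, 1, 2], 0, 2, 1, [3, 5, 6], [0, 1, 0, 1], [0, 1, 0, 0, 0, 1], [0, 0, 0, 0, 0, 0, 1]⟩,
   ⟨[0, 1, 0, 1, 0, 2, 0], 0, 0, 1, [1, 0, 0, 7], [0, 0, 0, 0, 0, 1], [0, 1, 0, 3], []⟩,
   ⟨[0, 1, 0, 1, 1, 0, 1], 0, 0, 2, [1, 0, 0, 7], [0, 0, 0, 1, 0, 0, 1], [0, 2, 0, 1, 1], []⟩,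
   ⟨[0, 1, 0, 2, 0, 0, 0], 0, 0, 2, [1, 0, 0, 7], [0, 0, 0, 1], [0, 2, 0, 1], []⟩,
   ⟨[0, 1, 0, 3, 1, 0, 0], 0, 0, 5, [1, 0, 0, 7], [0, 1, 0, 0, 1], [0, 0, 0, 1, 1], []⟩,
   ⟨[0, 1, 1, 0, 0, 0, 3], 0, 0, 6, [1, 0, 0, 7], [0, 1, 1], [0, 1, 0, 0, 0, 0, 1], []⟩,
   ⟨[0, 1, 1, 0, 0, 1, 1], 0, 0, 1, [1, 0, 0, 7], [0, 0, 0, 0, 0, 1, 1], [0, 1, 2, 0, 0, 0, 1], []⟩,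
   ⟨[0, 1, 1, 0, 1, 0, 0], 0, 0, 1, [1, 0, 0, 7], [0, 0, 0, 0, 2], [0, 1, 2, 0, 1], []⟩,
   ⟨[0, 1, 1, 1, 2, 0, 0], 0, 2, 1, [1, 2, 4], [0, 1, 0, 1], [0, 0, 1, 1], [0, 0, 0, 0, 1]⟩,
   ⟨[0, 1, 1, 2, 0, 1, 0], 2, 3, 5, [5], [0, 1], [0, 0, 0, 1, 0, 4], []⟩,
   ⟨[0, 1, 2, 0, 1, 1, 0], 0, 2, 1, [1, 2, 4], [0, 1, 0, 0, 0, 1], [0, 0, 1], [0, 0, 0, 0, 1, 1]⟩,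
   ⟨[0, 1, 2, 1, 0, 0, 1], 1, 3, 4, [6], [0, 0, 0, 1], [0, 0, 1, 0, 0, 0, 3], []⟩,
   ⟨[0, 1, 3, 0, 0, 0, 0], 0, 0, 4, [1, 0, 0, 7], [0, 2], [0, 1, 1], []⟩,
   ⟨[0, 2, 0, 0, 0, 0, 2], 0, 0, 1, [1, 0, 0, 7], [0, 0, 0, 0, 0, 0, 1], [0, 1, 0, 0, 0, 0, 1], []⟩,
   ⟨[0, 2, 0, 0, 0, 1, 0], 0, 0, 1, [1, 0, 0, 7], [0, 0, 0, 0, 0, 1], [0, 1], []⟩,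
   ⟨[0, 2, 0, 0, 3, 0, 0], 0, 2, 1, [4, 1, 0], [0, 0, 0, 0, 1], [0, 1], []⟩,
   ⟨[0, 2, 0, 1, 1, 1, 0], 3, 3, 1, [4], [0, 0, 0, 0, 0, 1], [0, 1, 0, 0, 4], []⟩,
   ⟨[0, 2, 0, 2, 0, 0, 1], 0, 0, 5, [1, 0, 0, 7], [0, 1], [0, 0, 0, 1, 0, 0, 2], []⟩,
   ⟨[0, 2, 0, 4, 0, 0, 0], 0, 0, 5, [1, 0, 0, 7], [0, 1], [0, 0, 0, 1], []⟩,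
   ⟨[0, 2, 1, 0, 0, 2, 0], 0, 0, 1, [1, 0, 0, 7], [0, 0, 0, 0, 0, 1], [0, 1, 2], []⟩,
   ⟨[0, 2, 1, 0, 1, 0, 1], 0, 2, 1, [1, 2, 4], [0, 1], [0, 0, 1, 0, 0, 0, 1], [0, 0, 0, 0, 1, 0, 1]⟩,
   ⟨[0, 2, 1, 1, 0, 0, 0], 0, 0, 1, [1, 0, 0, 7], [0, 0, 0, 2], [0, 1, 2], []⟩,
   ⟨[0, 2, 2, 0, 2, 0, 0], 0, 2, 1, [1, 2, 4], [0, 1], [0, 0, 1], [0, 0, 0, 0, 1]⟩,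
   ⟨[0, 3, 0, 0, 0, 1, 1], 0, 0, 1, [1, 0, 0, 7], [0, 0, 0, 0, 0, 1, 1], [0, 1, 0, 0, 0, 0, 1], []⟩,
   ⟨[0, 3, 0, 0, 1, 0, 0], 0, 0, 1, [1, 0, 0, 7], [0, 0, 0, 0, 2], [0, 1, 0, 0, 1], []⟩,
   ⟨[0, 3, 2, 0, 0, 0, 0], 0, 2, 1, [1, 2, 0], [0, 1], [0, 0, 1], []⟩,
   ⟨[0, 4, 0, 0, 0, 2, 0], 0, 0, 1, [1, 0, 0, 7], [0, 0, 0, 0, 0, 1], [0, 1], []⟩,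
   ⟨[0, 4, 0, 1, 0, 0, 0], 0, 0, 1, [1, 0, 0, 7], [0, 0, 0, 2], [0, 1], []⟩]

theorem cs7_ok : ∀ c ∈ cs7, c.ok 7 := by decide +kernel

/-- exponent 8 -/
def cs8 : List Cert :=
  [⟨[0, 0, 0, 0, 0, 0, 0, 0], 0, 0, 1, [1, 0, 0, 8], [], [], []⟩,
   ⟨[0, 0, 0, 0, 0, 0, 3, 2], 0, 2, 1, [6, 7, 0], [0, 0, 0, 0, 0, 0, 1], [0, 0, 0, 0, 0, 0, 0, 1], []⟩,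
   ⟨[0, 0, 0, 0, 0, 1, 0, 5], 0, 1, 5, [1, 1, 1, 5], [0, 0, 0, 0, 0, 0, 0, 1], [0, 0, 0, 0, 0, 1], []⟩,
   ⟨[0, 0, 0, 0, 0, 1, 1, 3], 0, 1, 5, [1, 0, 1, 5], [0, 0, 0, 0, 0, 0, 1, 1], [0, 0, 0, 0, 0, 1, 3], []⟩,
   ⟨[0, 0, 0, 0, 0, 1, 2, 1], 0, 0, 5, [1, 0, 0, 8], [0, 0, 0, 0, 0, 0, 1], [0, 0, 0, 0, 0, 1, 0, 3], []⟩,
   ⟨[0, 0, 0, 0, 0, 2, 0, 2], 0, 1, 5, [1, 0, 1, 5], [0, 0, 0, 0, 0, 0, 0, 1], [0, 0, 0, 0, 0, 1], []⟩,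
   ⟨[0, 0, 0, 0, 0, 2, 1, 0], 0, 1, 1, [1, 0, 1, 5], [0, 0, 0, 0, 0, 1, 2], [0, 0, 0, 0, 0, 2], []⟩,
   ⟨[0, 0, 0, 0, 0, 4, 2, 0], 0, 0, 5, [1, 0, 0, 8], [0, 0, 0, 0, 0, 0, 1], [0, 0, 0, 0, 0, 1], []⟩,
   ⟨[0, 0, 0, 0, 0, 5, 0, 1], 0, 1, 5, [1, 1, 5, 1], [0, 0, 0, 0, 0, 0, 0, 1], [0, 0, 0, 0, 0, 1], []⟩,
   ⟨[0, 0, 0, 0, 1, 0, 0, 4], 0, 1, 5, [1, 0, 1, 5], [0, 0, 0, 0, 0, 0, 0, 1], [0, 0, 0, 0, 4], []⟩,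
   ⟨[0, 0, 0, 0, 1, 0, 1, 2], 0, 1, 5, [1, 0, 1, 5], [0, 0, 0, 0, 1, 0, 1, 1], [0, 0, 0, 0, 1, 0, 3], []⟩,
   ⟨[0, 0, 0, 0, 1, 0, 2, 0], 0, 0, 1, [1, 0, 0, 8], [0, 0, 0, 0, 0, 0, 1], [0, 0, 0, 0, 4], []⟩,
   ⟨[0, 0, 0, 0, 1, 1, 0, 1], 0, 1, 1, [1, 0, 1, 5], [0, 0, 0, 0, 1, 1, 0, 2], [0, 0, 0, 0, 1, 2, 0, 1], []⟩,
   ⟨[0, 0, 0, 0, 1, 3, 1, 1], 0, 1, 5, [1, 0, 1, 5], [0, 0, 0, 0, 1, 0, 2, 1], [0, 0, 0, 0, 1, 1], []⟩,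
   ⟨[0, 0, 0, 0, 1, 4, 0, 0], 0, 0, 5, [1, 0, 0, 8], [0, 0, 0, 0, 2], [0, 0, 0, 0, 0, 1], []⟩,
   ⟨[0, 0, 0, 0, 2, 0, 0, 0], 0, 1, 1, [1, 0, 1, 5], [0, 0, 0, 0, 1], [0, 0, 0, 0, 1], []⟩,
   ⟨[0, 0, 0, 0, 2, 2, 0, 2], 0, 1, 5, [1, 0, 1, 5], [0, 0, 0, 0, 1, 0, 0, 1], [0, 0, 0, 0, 1, 1], []⟩,
   ⟨[0, 0, 0, 0, 2, 2, 1, 0], 0, 1, 5, [1, 0, 1, 5], [0, 0, 0, 0, 1, 0, 2], [0, 0, 0, 0, 1, 1], []⟩,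
   ⟨[0, 0, 0, 0, 3, 0, 2, 0], 0, 2, 1, [4, 6, 0], [0, 0, 0, 0, 1], [0, 0, 0, 0, 0, 0, 1], []⟩,
   ⟨[0, 0, 0, 0, 3, 1, 0, 1], 0, 1, 5, [1, 0, 1, 5], [0, 0, 0, 0, 1, 0, 0, 1], [0, 0, 0, 0, 1, 1], []⟩,
   ⟨[0, 0, 0, 0, 4, 0, 0, 0], 0, 1, 1, [1, 0, 1, 5], [0, 0, 0, 0, 1], [0, 0, 0, 0, 1], []⟩,
   ⟨[0, 0, 0, 1, 0, 0, 0, 3], 0, 1, 5, [1, 0, 1, 5], [0, 0, 0, 1, 0, 0, 0, 1], [0, 0, 0, 4], []⟩,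
   ⟨[0, 0, 0, 1, 0, 0, 1, 1], 0, 0, 1, [1, 0, 0, 8], [0, 0, 0, 0, 0, 0, 1, 1], [0, 0, 0, 3, 0, 0, 0, 1], []⟩,
   ⟨[0, 0, 0, 1, 0, 1, 0, 0], 0, 0, 1, [1, 0, 0, 8], [0, 0, 0, 0, 0, 2], [0, 0, 0, 3, 0, 1], []⟩,
   ⟨[0, 0, 0, 1, 0, 3, 1, 0], 0, 0, 5, [1, 0, 0, 8], [0, 0, 0, 1, 0, 0, 1], [0, 0, 0, 1, 0, 1], []⟩,
   ⟨[0, 0, 0, 1, 1, 2, 0, 1], 0, 1, 5, [1, 0, 1, 5], [0, 0, 0, 2, 1, 0, 0, 1], [0, 0, 0, 1, 1, 1], []⟩,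
   ⟨[0, 0, 0, 1, 2, 1, 0, 0], 0, 1, 1, [1, 0, 1, 5], [0, 0, 0, 1, 1, 1], [0, 0, 0, 0, 1, 2], []⟩,
   ⟨[0, 0, 0, 2, 0, 0, 2, 2], 0, 2, 1, [3, 6, 7], [0, 0, 0, 1], [0, 0, 0, 0, 0, 0, 1], [0, 0, 0, 0, 0, 0, 0, 1]⟩,
   ⟨[0, 0, 0, 2, 0, 0, 3, 0], 0, 2, 1, [6, 3, 0], [0, 0, 0, 0, 0, 0, 1], [0, 0, 0, 1], []⟩,
   ⟨[0, 0, 0, 2, 0, 1, 1, 1], 0, 2, 1, [3, 6, 7], [0, 0, 0, 1], [0, 0, 0, 0, 0, 1, 1], [0, 0, 0, 0, 0, 1, 0, 1]⟩,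
   ⟨[0, 0, 0, 2, 0, 2, 0, 0], 0, 1, 1, [1, 0, 1, 5], [0, 0, 0, 1, 0, 1], [0, 0, 0, 0, 0, 2], []⟩,
   ⟨[0, 0, 0, 2, 1, 0, 0, 2], 0, 2, 1, [3, 6, 7], [0, 0, 0, 1], [0, 0, 0, 0, 2], [0, 0, 0, 0, 0, 0, 0, 1]⟩,
   ⟨[0, 0, 0, 2, 1, 0, 1, 0], 0, 1, 1, [1, 0, 1, 5], [0, 0, 0, 1, 0, 0, 2], [0, 0, 0, 0, 4], []⟩,
   ⟨[0, 0, 0, 3, 0, 0, 0, 1], 0, 1, 1, [1, 0, 1, 5], [0, 0, 0, 1, 0, 0, 0, 1], [0, 0, 0, 0, 0, 0, 0, 4], []⟩,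
   ⟨[0, 0, 0, 4, 1, 0, 0, 0], 0, 1, 1, [1, 0, 1, 5], [0, 0, 0, 1], [0, 0, 0, 0, 4], []⟩,
   ⟨[0, 0, 1, 0, 0, 0, 0, 2], 0, 0, 1, [1, 0, 0, 8], [0, 0, 0, 0, 0, 0, 0, 1], [0, 0, 2, 0, 0, 0, 0, 1], []⟩,
   ⟨[0, 0, 1, 0, 0, 0, 1, 0], 0, 0, 1, [1, 0, 0, 8], [0, 0, 0, 0, 0, 0, 1], [0, 0, 2], []⟩,
   ⟨[0, 0, 1, 0, 0, 2, 2, 0], 0, 0, 5, [1, 0, 0, 8], [0, 0, 0, 0, 0, 0, 1], [0, 0, 2, 0, 0, 1], []⟩,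
   ⟨[0, 0, 1, 0, 0, 3, 0, 1], 0, 1, 5, [1, 0, 1, 5], [0, 0, 3, 0, 0, 0, 0, 1], [0, 0, 1, 0, 0, 1], []⟩,
   ⟨[0, 0, 1, 0, 1, 1, 0, 3], 0, 1, 5, [1, 0, 1, 5], [0, 0, 0, 0, 1, 0, 0, 1], [0, 0, 2, 0, 1, 1], []⟩,
   ⟨[0, 0, 1, 0, 1, 1, 1, 1], 0, 1, 5, [1, 0, 1, 5], [0, 0, 0, 0, 1, 0, 2, 1], [0, 0, 2, 0, 1, 1], []⟩,
   ⟨[0, 0, 1, 0, 1, 2, 0, 0], 0, 0, 5, [1, 0, 0, 8], [0, 0, 0, 0, 2], [0, 0, 2, 0, 0, 1], []⟩,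
   ⟨[0, 0, 1, 0, 2, 0, 0, 2], 0, 1, 5, [1, 0, 1, 5], [0, 0, 0, 0, 1, 0, 0, 1], [0, 0, 2, 0, 1], []⟩,
   ⟨[0, 0, 1, 0, 2, 0, 1, 0], 0, 1, 1, [1, 0, 1, 5], [0, 0, 0, 0, 1, 0, 2], [0, 0, 2, 0, 1], []⟩,
   ⟨[0, 0, 1, 1, 0, 0, 2, 1], 0, 2, 1, [3, 6, 7], [0, 0, 1, 1], [0, 0, 0, 0, 0, 0, 1], [0, 0, 1, 0, 0, 0, 0, 1]⟩,
   ⟨[0, 0, 1, 1, 0, 1, 0, 2], 0, 1, 5, [1, 0, 1, 5], [0, 0, 0, 2, 0, 0, 0, 1], [0, 0, 2, 1, 0, 1], []⟩,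
   ⟨[0, 0, 1, 1, 0, 1, 1, 0], 0, 1, 1, [1, 0, 1, 5], [0, 0, 0, 1, 0, 1, 2], [0, 0, 2, 0, 0, 2], []⟩,
   ⟨[0, 0, 1, 1, 1, 0, 0, 1], 0, 1, 1, [1, 0, 1, 5], [0, 0, 0, 1, 1, 0, 0, 2], [0, 0, 2, 0, 1, 0, 0, 1], []⟩,
   ⟨[0, 0, 1, 2, 0, 0, 0, 0], 0, 1, 1, [1, 0, 1, 5], [0, 0, 0, 1], [0, 0, 2], []⟩,
   ⟨[0, 0, 1, 2, 2, 0, 0, 0], 0, 1, 1, [1, 0, 1, 5], [0, 0, 0, 1, 1], [0, 0, 2, 0, 1], []⟩,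
   ⟨[0, 0, 1, 3, 0, 1, 0, 0], 0, 1, 1, [1, 0, 1, 5], [0, 0, 0, 1, 0, 1], [0, 0, 2, 0, 0, 2], []⟩,
   ⟨[0, 0, 2, 0, 0, 0, 0, 4], 0, 1, 5, [1, 0, 1, 5], [0, 0, 0, 0, 0, 0, 0, 1], [0, 0, 2], []⟩,
   ⟨[0, 0, 2, 0, 0, 0, 1, 2], 0, 1, 5, [1, 0, 1, 5], [0, 0, 0, 0, 0, 0, 2, 1], [0, 0, 2], []⟩,
   ⟨[0, 0, 2, 0, 0, 0, 2, 0], 0, 0, 1, [1, 0, 0, 8], [0, 0, 0, 0, 0, 0, 1], [0, 0, 2], []⟩,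
   ⟨[0, 0, 2, 0, 0, 1, 0, 1], 0, 1, 5, [1, 0, 1, 5], [0, 0, 0, 0, 0, 3, 0, 1], [0, 0, 2], []⟩,
   ⟨[0, 0, 2, 0, 1, 0, 0, 0], 0, 0, 1, [1, 0, 0, 8], [0, 0, 0, 0, 2], [0, 0, 2], []⟩,
   ⟨[0, 0, 2, 0, 3, 0, 0, 0], 0, 2, 1, [4, 2, 0], [0, 0, 0, 0, 1], [0, 0, 1], []⟩,
   ⟨[0, 0, 2, 2, 0, 0, 1, 0], 0, 1, 1, [1, 0, 1, 5], [0, 0, 0, 1, 0, 0, 2], [0, 0, 2], []⟩,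
   ⟨[0, 0, 2, 4, 0, 0, 0, 0], 0, 1, 1, [1, 0, 1, 5], [0, 0, 0, 1], [0, 0, 2], []⟩,
   ⟨[0, 0, 3, 0, 0, 2, 0, 0], 0, 2, 1, [2, 5, 0], [0, 0, 1], [0, 0, 0, 0, 0, 1], []⟩,
   ⟨[0, 1, 0, 0, 0, 0, 0, 1], 0, 0, 1, [1, 0, 0, 8], [0, 0, 0, 0, 0, 0, 0, 1], [0, 1, 0, 0, 0, 0, 0, 1], []⟩,
   ⟨[0, 1, 0, 0, 0, 2, 1, 1], 0, 1, 5, [1, 0, 1, 5], [0, 1, 0, 0, 0, 0, 2, 1], [0, 2, 0, 0, 0, 1], []⟩,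
   ⟨[0, 1, 0, 0, 0, 3, 0, 0], 0, 0, 5, [1, 0, 0, 8], [0, 2], [0, 1, 0, 0, 0, 1], []⟩,
   ⟨[0, 1, 0, 0, 1, 1, 0, 2], 0, 1, 5, [1, 0, 1, 5], [0, 1, 0, 0, 1, 0, 0, 1], [0, 2, 0, 0, 1, 1], []⟩,
   ⟨[0, 1, 0, 0, 1, 1, 1, 0], 0, 1, 1, [1, 0, 1, 5], [0, 0, 0, 0, 1, 1, 2], [0, 1, 0, 0, 1, 2], []⟩,
   ⟨[0, 1, 0, 0, 2, 0, 0, 1], 0, 1, 1, [1, 0, 1, 5], [0, 0, 0, 0, 1, 0, 0, 2], [0, 1, 0, 0, 1, 0, 0, 1], []⟩,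
   ⟨[0, 1, 0, 1, 0, 0, 1, 2], 0, 2, 1, [3, 6, 7], [0, 1, 0, 1], [0, 1, 0, 0, 0, 0, 1], [0, 0, 0, 0, 0, 0, 0, 1]⟩,
   ⟨[0, 1, 0, 1, 0, 0, 2, 0], 0, 0, 1, [1, 0, 0, 8], [0, 0, 0, 0, 0, 0, 1], [0, 1, 0, 3], []⟩,
   ⟨[0, 1, 0, 1, 0, 1, 0, 1], 0, 1, 1, [1, 0, 1, 5], [0, 0, 0, 1, 0, 1, 0, 2], [0, 1, 0, 0, 0, 2, 0, 1], []⟩,
   ⟨[0, 1, 0, 1, 1, 0, 0, 0], 0, 0, 1, [1, 0, 0, 8], [0, 0, 0, 0, 2], [0, 1, 0, 3], []⟩,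
   ⟨[0, 1, 0, 1, 3, 0, 0, 0], 0, 1, 1, [1, 0, 1, 5], [0, 0, 0, 1, 1], [0, 1, 0, 0, 1], []⟩,
   ⟨[0, 1, 0, 2, 1, 1, 0, 0], 0, 1, 1, [1, 0, 1, 5], [0, 0, 0, 1, 1, 1], [0, 1, 0, 0, 1, 2], []⟩,
   ⟨[0, 1, 0, 3, 0, 0, 1, 0], 0, 1, 1, [1, 0, 1, 5], [0, 0, 0, 1, 0, 0, 1], [0, 1, 0, 0, 0, 0, 3], []⟩,
   ⟨[0, 1, 0, 5, 0, 0, 0, 0], 0, 1, 1, [1, 1, 1, 5], [0, 0, 0, 1], [0, 1], []⟩,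
   ⟨[0, 1, 1, 0, 0, 0, 0, 3], 0, 1, 5, [1, 0, 1, 5], [0, 1, 0, 0, 0, 0, 0, 1], [0, 2, 2], []⟩,
   ⟨[0, 1, 1, 0, 0, 0, 1, 1], 0, 0, 1, [1, 0, 0, 8], [0, 0, 0, 0, 0, 0, 1, 1], [0, 1, 2, 0, 0, 0, 0, 1], []⟩,
   ⟨[0, 1, 1, 0, 0, 1, 0, 0], 0, 0, 1, [1, 0, 0, 8], [0, 0, 0, 0, 0, 2], [0, 1, 2, 0, 0, 1], []⟩,
   ⟨[0, 1, 1, 1, 0, 2, 0, 0], 0, 2, 1, [1, 2, 5], [0, 1, 0, 1], [0, 0, 1, 1], [0, 0, 0, 0, 0, 1]⟩,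
   ⟨[0, 1, 1, 1, 1, 0, 1, 0], 0, 1, 1, [1, 0, 1, 5], [0, 0, 0, 1, 1, 0, 2], [0, 1, 2, 0, 1], []⟩,
   ⟨[0, 1, 1, 2, 0, 0, 0, 1], 0, 1, 1, [1, 0, 1, 5], [0, 0, 0, 1, 0, 0, 0, 2], [0, 1, 2, 0, 0, 0, 0, 1], []⟩,
   ⟨[0, 1, 1, 3, 1, 0, 0, 0], 0, 1, 1, [1, 0, 1, 5], [0, 0, 0, 1, 1], [0, 1, 2, 0, 1], []⟩,
   ⟨[0, 1, 2, 0, 0, 1, 1, 0], 0, 2, 1, [1, 2, 5], [0, 1, 0, 0, 0, 0, 1], [0, 0, 1], [0, 0, 0, 0, 0, 1, 1]⟩,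
   ⟨[0, 1, 2, 1, 0, 0, 0, 0], 0, 1, 1, [1, 0, 1, 5], [0, 3, 0, 1], [0, 0, 2], []⟩,
   ⟨[0, 2, 0, 0, 0, 0, 0, 2], 0, 0, 1, [1, 0, 0, 8], [0, 0, 0, 0, 0, 0, 0, 1], [0, 1, 0, 0, 0, 0, 0, 1], []⟩,
   ⟨[0, 2, 0, 0, 0, 0, 1, 0], 0, 0, 1, [1, 0, 0, 8], [0, 0, 0, 0, 0, 0, 1], [0, 1], []⟩,
   ⟨[0, 2, 0, 0, 1, 2, 0, 0], 0, 2, 1, [1, 2, 5], [0, 1], [0, 0, 0, 0, 2], [0, 0, 0, 0, 0, 1]⟩,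
   ⟨[0, 2, 0, 0, 2, 0, 1, 0], 0, 1, 1, [1, 0, 1, 5], [0, 0, 0, 0, 1, 0, 2], [0, 1, 0, 0, 1], []⟩,
   ⟨[0, 2, 0, 1, 0, 1, 1, 0], 0, 1, 1, [1, 0, 1, 5], [0, 0, 0, 1, 0, 1, 2], [0, 1, 0, 0, 0, 2], []⟩,
   ⟨[0, 2, 0, 1, 1, 0, 0, 1], 0, 1, 1, [1, 0, 1, 5], [0, 0, 0, 1, 1, 0, 0, 2], [0, 1, 0, 0, 1, 0, 0, 1], []⟩,
   ⟨[0, 2, 0, 2, 0, 0, 0, 0], 0, 1, 1, [1, 0, 1, 5], [0, 0, 0, 1], [0, 1], []⟩,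
   ⟨[0, 2, 0, 2, 2, 0, 0, 0], 0, 1, 1, [1, 0, 1, 5], [0, 0, 0, 1, 1], [0, 1, 0, 0, 1], []⟩,
   ⟨[0, 2, 1, 0, 0, 0, 2, 0], 0, 0, 1, [1, 0, 0, 8], [0, 0, 0, 0, 0, 0, 1], [0, 1, 2], []⟩,
   ⟨[0, 2, 1, 0, 0, 1, 0, 1], 0, 2, 1, [1, 2, 5], [0, 1], [0, 0, 1, 0, 0, 0, 0, 1], [0, 0, 0, 0, 0, 1, 0, 1]⟩,
   ⟨[0, 2, 1, 0, 1, 0, 0, 0], 0, 0, 1, [1, 0, 0, 8], [0, 0, 0, 0, 2], [0, 1, 2], []⟩,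
   ⟨[0, 2, 2, 0, 0, 2, 0, 0], 0, 2, 1, [1, 2, 5], [0, 1], [0, 0, 1], [0, 0, 0, 0, 0, 1]⟩,
   ⟨[0, 2, 3, 0, 0, 0, 0, 0], 0, 2, 1, [2, 1, 0], [0, 0, 1], [0, 1], []⟩,
   ⟨[0, 3, 0, 0, 0, 0, 1, 1], 0, 0, 1, [1, 0, 0, 8], [0, 0, 0, 0, 0, 0, 1, 1], [0, 1, 0, 0, 0, 0, 0, 1], []⟩,
   ⟨[0, 3, 0, 0, 0, 1, 0, 0], 0, 0, 1, [1, 0, 0, 8], [0, 0, 0, 0, 0, 2], [0, 1, 0, 0, 0, 1], []⟩,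
   ⟨[0, 3, 0, 1, 1, 0, 1, 0], 0, 1, 1, [1, 0, 1, 5], [0, 0, 0, 1, 1, 0, 2], [0, 1, 0, 0, 1], []⟩,
   ⟨[0, 3, 1, 1, 0, 0, 0, 0], 0, 1, 1, [1, 0, 1, 5], [0, 0, 3, 1], [0, 1, 1], []⟩,
   ⟨[0, 4, 0, 0, 0, 0, 2, 0], 0, 0, 1, [1, 0, 0, 8], [0, 0, 0, 0, 0, 0, 1], [0, 1], []⟩,
   ⟨[0, 4, 0, 0, 1, 0, 0, 0], 0, 0, 1, [1, 0, 0, 8], [0, 0, 0, 0, 2], [0, 1], []⟩,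
   ⟨[0, 5, 0, 1, 0, 0, 0, 0], 0, 1, 1, [1, 1, 5, 1], [0, 0, 0, 1], [0, 1], []⟩]

theorem cs8_ok : ∀ c ∈ cs8, c.ok 8 := by decide +kernel

/-- exponent 9 -/
def cs9 : List Cert :=
  [⟨[0, 0, 0, 0, 0, 0, 0, 0, 0], 0, 0, 1, [1, 0, 0, 9], [], [], []⟩,
   ⟨[0, 0, 0, 0, 0, 0, 0, 4, 1], 0, 0, 4, [1, 0, 0, 9], [0, 0, 0, 0, 0, 0, 0, 0, 2], [0, 0, 0, 0, 0, 0, 0, 1], []⟩,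
   ⟨[0, 0, 0, 0, 0, 0, 1, 2, 2], 0, 2, 1, [3, 7, 8], [0, 0, 0, 0, 0, 0, 2], [0, 0, 0, 0, 0, 0, 0, 1], [0, 0, 0, 0, 0, 0, 0, 0, 1]⟩,
   ⟨[0, 0, 0, 0, 0, 0, 1, 3, 0], 0, 0, 4, [1, 0, 0, 9], [0, 0, 0, 0, 0, 0, 2], [0, 0, 0, 0, 0, 0, 1, 1], []⟩,
   ⟨[0, 0, 0, 0, 0, 0, 2, 0, 3], 0, 2, 1, [8, 6, 0], [0, 0, 0, 0, 0, 0, 0, 0, 1], [0, 0, 0, 0, 0, 0, 1], []⟩,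
   ⟨[0, 0, 0, 0, 0, 0, 2, 1, 1], 0, 2, 1, [4, 6, 8], [0, 0, 0, 0, 0, 0, 0, 0, 2], [0, 0, 0, 0, 0, 0, 1], [0, 0, 0, 0, 0, 0, 0, 2]⟩,
   ⟨[0, 0, 0, 0, 0, 0, 3, 0, 0], 0, 2, 1, [6, 0, 0], [0, 0, 0, 0, 0, 0, 1], [], []⟩,
   ⟨[0, 0, 0, 0, 0, 1, 0, 2, 1], 0, 0, 4, [1, 0, 0, 9], [0, 0, 0, 0, 0, 0, 0, 0, 2], [0, 0, 0, 0, 0, 2, 0, 1], []⟩,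
   ⟨[0, 0, 0, 0, 0, 1, 1, 0, 2], 0, 0, 2, [1, 0, 0, 9], [0, 0, 0, 0, 0, 0, 0, 0, 1], [0, 0, 0, 0, 0, 1, 3], []⟩,
   ⟨[0, 0, 0, 0, 0, 1, 1, 1, 0], 0, 0, 2, [1, 0, 0, 9], [0, 0, 0, 0, 0, 0, 0, 2], [0, 0, 0, 0, 0, 1, 3], []⟩,
   ⟨[0, 0, 0, 0, 0, 2, 0, 0, 1], 0, 0, 2, [1, 0, 0, 9], [0, 0, 0, 0, 0, 0, 0, 0, 1], [0, 0, 0, 0, 0, 1], []⟩,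
   ⟨[0, 0, 0, 0, 0, 2, 2, 2, 0], 0, 2, 1, [5, 6, 7], [0, 0, 0, 0, 0, 1], [0, 0, 0, 0, 0, 0, 1], [0, 0, 0, 0, 0, 0, 0, 1]⟩,
   ⟨[0, 0, 0, 0, 0, 3, 2, 0, 0], 0, 2, 1, [5, 6, 0], [0, 0, 0, 0, 0, 1], [0, 0, 0, 0, 0, 0, 1], []⟩,
   ⟨[0, 0, 0, 0, 0, 4, 0, 0, 2], 0, 0, 2, [1, 0, 0, 9], [0, 0, 0, 0, 0, 0, 0, 0, 1], [0, 0, 0, 0, 0, 1], []⟩,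
   ⟨[0, 0, 0, 0, 0, 4, 0, 1, 0], 0, 0, 2, [1, 0, 0, 9], [0, 0, 0, 0, 0, 0, 0, 2], [0, 0, 0, 0, 0, 1], []⟩,
   ⟨[0, 0, 0, 0, 1, 0, 0, 0, 4], 0, 0, 8, [1, 0, 0, 9], [0, 0, 0, 0, 2], [0, 0, 0, 0, 0, 0, 0, 0, 1], []⟩,
   ⟨[0, 0, 0, 0, 1, 0, 0, 1, 2], 0, 0, 8, [1, 0, 0, 9], [0, 0, 0, 0, 2], [0, 0, 0, 0, 0, 0, 0, 2, 1], []⟩,
   ⟨[0, 0, 0, 0, 1, 0, 0, 2, 0], 0, 0, 1, [1, 0, 0, 9], [0, 0, 0, 0, 0, 0, 0, 1], [0, 0, 0, 0, 4], []⟩,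
   ⟨[0, 0, 0, 0, 1, 0, 1, 0, 1], 0, 0, 2, [1, 0, 0, 9], [0, 0, 0, 0, 1, 0, 0, 0, 1], [0, 0, 0, 0, 1, 0, 3], []⟩,
   ⟨[0, 0, 0, 0, 1, 1, 0, 0, 0], 0, 0, 1, [1, 0, 0, 9], [0, 0, 0, 0, 0, 2], [0, 0, 0, 0, 4], []⟩,
   ⟨[0, 0, 0, 0, 1, 2, 1, 1, 0], 0, 2, 1, [5, 6, 7], [0, 0, 0, 0, 0, 1], [0, 0, 0, 0, 1, 0, 1], [0, 0, 0, 0, 1, 0, 0, 1]⟩,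
   ⟨[0, 0, 0, 0, 1, 3, 0, 0, 1], 0, 0, 2, [1, 0, 0, 9], [0, 0, 0, 0, 1, 0, 0, 0, 1], [0, 0, 0, 0, 1, 1], []⟩,
   ⟨[0, 0, 0, 0, 2, 0, 0, 4, 0], 0, 0, 4, [1, 0, 0, 9], [0, 0, 0, 0, 1], [0, 0, 0, 0, 0, 0, 0, 1], []⟩,
   ⟨[0, 0, 0, 0, 2, 0, 2, 0, 2], 0, 2, 1, [4, 6, 8], [0, 0, 0, 0, 1], [0, 0, 0, 0, 0, 0, 1], [0, 0, 0, 0, 0, 0, 0, 0, 1]⟩,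
   ⟨[0, 0, 0, 0, 2, 0, 2, 1, 0], 0, 2, 1, [4, 6, 8], [0, 0, 0, 0, 1], [0, 0, 0, 0, 0, 0, 1], [0, 0, 0, 0, 0, 0, 0, 2]⟩,
   ⟨[0, 0, 0, 0, 2, 1, 0, 2, 0], 0, 0, 4, [1, 0, 0, 9], [0, 0, 0, 0, 1], [0, 0, 0, 0, 0, 2, 0, 1], []⟩,
   ⟨[0, 0, 0, 0, 2, 1, 1, 0, 1], 0, 2, 1, [4, 6, 8], [0, 0, 0, 0, 1], [0, 0, 0, 0, 0, 1, 1], [0, 0, 0, 0, 0, 1, 0, 0, 1]⟩,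
   ⟨[0, 0, 0, 0, 2, 2, 0, 0, 0], 0, 0, 2, [1, 0, 0, 9], [0, 0, 0, 0, 1], [0, 0, 0, 0, 1, 1], []⟩,
   ⟨[0, 0, 0, 0, 3, 0, 1, 0, 0], 0, 0, 7, [1, 0, 0, 9], [0, 0, 0, 0, 0, 0, 2], [0, 0, 0, 0, 1, 0, 1], []⟩,
   ⟨[0, 0, 0, 1, 0, 0, 0, 0, 3], 0, 0, 8, [1, 0, 0, 9], [0, 0, 0, 2], [0, 0, 0, 1, 0, 0, 0, 0, 1], []⟩,
   ⟨[0, 0, 0, 1, 0, 0, 0, 1, 1], 0, 0, 1, [1, 0, 0, 9], [0, 0, 0, 0, 0, 0, 0, 1, 1], [0, 0, 0, 3, 0, 0, 0, 0, 1], []⟩,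
   ⟨[0, 0, 0, 1, 0, 0, 1, 0, 0], 0, 0, 1, [1, 0, 0, 9], [0, 0, 0, 0, 0, 0, 2], [0, 0, 0, 3, 0, 0, 1], []⟩,
   ⟨[0, 0, 0, 1, 0, 1, 2, 1, 0], 0, 2, 1, [5, 6, 7], [0, 0, 0, 1, 0, 1], [0, 0, 0, 0, 0, 0, 1], [0, 0, 0, 1, 0, 0, 0, 1]⟩,
   ⟨[0, 0, 0, 1, 0, 2, 0, 2, 0], 0, 2, 1, [5, 6, 7], [0, 0, 0, 0, 0, 1], [0, 0, 0, 2], [0, 0, 0, 0, 0, 0, 0, 1]⟩,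
   ⟨[0, 0, 0, 1, 0, 2, 1, 0, 1], 3, 3, 2, [6], [0, 0, 0, 0, 0, 0, 0, 0, 1], [0, 0, 0, 0, 0, 1, 3], []⟩,
   ⟨[0, 0, 0, 1, 0, 3, 0, 0, 0], 0, 0, 2, [1, 0, 0, 9], [0, 0, 0, 2], [0, 0, 0, 1, 0, 1], []⟩,
   ⟨[0, 0, 0, 1, 1, 0, 1, 2, 0], 3, 3, 4, [6], [0, 0, 0, 0, 1], [0, 0, 0, 0, 0, 0, 6, 1], []⟩,
   ⟨[0, 0, 0, 1, 1, 0, 2, 0, 1], 0, 2, 1, [4, 6, 8], [0, 0, 0, 1, 1], [0, 0, 0, 0, 0, 0, 1], [0, 0, 0, 1, 0, 0, 0, 0, 1]⟩,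
   ⟨[0, 0, 0, 1, 1, 1, 1, 0, 0], 3, 3, 2, [6], [0, 0, 0, 0, 1], [0, 0, 0, 0, 1, 1, 3], []⟩,
   ⟨[0, 0, 0, 1, 2, 0, 0, 0, 2], 0, 2, 1, [4, 6, 8], [0, 0, 0, 0, 1], [0, 0, 0, 2], [0, 0, 0, 0, 0, 0, 0, 0, 1]⟩,
   ⟨[0, 0, 0, 1, 2, 0, 0, 1, 0], 0, 0, 4, [1, 0, 0, 9], [0, 0, 0, 0, 1], [0, 0, 0, 3, 0, 0, 0, 1], []⟩,
   ⟨[0, 0, 0, 2, 0, 0, 0, 2, 2], 0, 2, 1, [3, 7, 8], [0, 0, 0, 1], [0, 0, 0, 0, 0, 0, 0, 1], [0, 0, 0, 0, 0, 0, 0, 0, 1]⟩,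
   ⟨[0, 0, 0, 2, 0, 0, 0, 3, 0], 0, 2, 1, [7, 3, 0], [0, 0, 0, 0, 0, 0, 0, 1], [0, 0, 0, 1], []⟩,
   ⟨[0, 0, 0, 2, 0, 0, 1, 1, 1], 0, 2, 1, [3, 7, 8], [0, 0, 0, 1], [0, 0, 0, 0, 0, 0, 1, 1], [0, 0, 0, 0, 0, 0, 1, 0, 1]⟩,
   ⟨[0, 0, 0, 2, 0, 0, 2, 0, 0], 0, 2, 1, [0, 3, 6], [], [0, 0, 0, 1], [0, 0, 0, 0, 0, 0, 1]⟩,
   ⟨[0, 0, 0, 2, 0, 1, 0, 0, 2], 0, 2, 1, [3, 7, 8], [0, 0, 0, 1], [0, 0, 0, 0, 0, 2], [0, 0, 0, 0, 0, 0, 0, 0, 1]⟩,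
   ⟨[0, 0, 0, 2, 0, 1, 0, 1, 0], 0, 2, 1, [1, 3, 5], [0, 0, 0, 0, 0, 0, 0, 2], [0, 0, 0, 1], [0, 0, 0, 0, 0, 1, 0, 1]⟩,
   ⟨[0, 0, 0, 2, 1, 0, 0, 0, 1], 0, 2, 1, [2, 3, 4], [0, 0, 0, 0, 0, 0, 0, 0, 2], [0, 0, 0, 1], [0, 0, 0, 0, 1, 0, 0, 0, 1]⟩,
   ⟨[0, 0, 0, 2, 3, 0, 0, 0, 0], 0, 2, 1, [4, 3, 0], [0, 0, 0, 0, 1], [0, 0, 0, 1], []⟩,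
   ⟨[0, 0, 0, 3, 0, 0, 0, 0, 0], 0, 2, 1, [3, 0, 0], [0, 0, 0, 1], [], []⟩,
   ⟨[0, 0, 1, 0, 0, 0, 0, 0, 2], 0, 0, 1, [1, 0, 0, 9], [0, 0, 0, 0, 0, 0, 0, 0, 1], [0, 0, 2, 0, 0, 0, 0, 0, 1], []⟩,
   ⟨[0, 0, 1, 0, 0, 0, 0, 1, 0], 0, 0, 1, [1, 0, 0, 9], [0, 0, 0, 0, 0, 0, 0, 1], [0, 0, 2], []⟩,
   ⟨[0, 0, 1, 0, 0, 1, 1, 2, 0], 0, 2, 1, [5, 6, 7], [0, 0, 1, 0, 0, 1], [0, 0, 1, 0, 0, 0, 1], [0, 0, 0, 0, 0, 0, 0, 1]⟩,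
   ⟨[0, 0, 1, 0, 0, 2, 0, 1, 1], 2, 3, 2, [7], [0, 0, 0, 0, 0, 0, 0, 0, 1], [0, 0, 0, 0, 0, 1, 0, 5], []⟩,
   ⟨[0, 0, 1, 0, 0, 2, 1, 0, 0], 0, 0, 5, [1, 0, 0, 9], [0, 0, 0, 0, 0, 1], [0, 0, 1, 0, 0, 0, 3], []⟩,
   ⟨[0, 0, 1, 0, 1, 0, 0, 3, 0], 0, 0, 4, [1, 0, 0, 9], [0, 0, 1, 0, 1], [0, 0, 1, 0, 0, 0, 0, 1], []⟩,
   ⟨[0, 0, 1, 0, 1, 0, 2, 0, 0], 0, 2, 1, [1, 2, 6], [0, 0, 0, 0, 2], [0, 0, 1, 0, 1], [0, 0, 0, 0, 0, 0, 1]⟩,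
   ⟨[0, 0, 1, 0, 1, 1, 0, 0, 2], 4, 3, 8, [5], [0, 0, 1], [0, 0, 0, 0, 0, 4, 0, 0, 1], []⟩,
   ⟨[0, 0, 1, 0, 1, 1, 0, 1, 0], 0, 0, 4, [1, 0, 0, 9], [0, 0, 1, 0, 1], [0, 0, 1, 0, 0, 2, 0, 1], []⟩,
   ⟨[0, 0, 1, 0, 2, 0, 0, 0, 1], 0, 0, 7, [1, 0, 0, 9], [0, 0, 2], [0, 0, 0, 0, 1, 0, 0, 0, 2], []⟩,
   ⟨[0, 0, 1, 0, 4, 0, 0, 0, 0], 0, 0, 7, [1, 0, 0, 9], [0, 0, 2], [0, 0, 0, 0, 1], []⟩,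
   ⟨[0, 0, 1, 1, 0, 0, 0, 2, 1], 0, 2, 1, [3, 7, 8], [0, 0, 1, 1], [0, 0, 0, 0, 0, 0, 0, 1], [0, 0, 1, 0, 0, 0, 0, 0, 1]⟩,
   ⟨[0, 0, 1, 1, 0, 0, 1, 0, 2], 3, 3, 8, [6], [0, 0, 1], [0, 0, 0, 0, 0, 0, 3, 0, 1], []⟩,
   ⟨[0, 0, 1, 1, 0, 0, 1, 1, 0], 3, 3, 1, [6], [0, 0, 0, 0, 0, 0, 0, 1], [0, 0, 2, 0, 0, 0, 6], []⟩,
   ⟨[0, 0, 1, 1, 0, 1, 0, 0, 1], 2, 3, 2, [3], [0, 0, 0, 0, 0, 0, 0, 0, 1], [0, 0, 0, 6, 0, 1], []⟩,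
   ⟨[0, 0, 1, 1, 1, 0, 0, 0, 0], 0, 0, 4, [1, 0, 0, 9], [0, 0, 1, 0, 1], [0, 0, 1, 3], []⟩,
   ⟨[0, 0, 1, 1, 2, 1, 0, 0, 0], 0, 2, 1, [2, 3, 4], [0, 0, 1, 0, 0, 1], [0, 0, 0, 1, 0, 1], [0, 0, 0, 0, 1]⟩,
   ⟨[0, 0, 1, 2, 0, 2, 0, 0, 0], 0, 2, 1, [1, 3, 5], [0, 0, 2], [0, 0, 0, 1], [0, 0, 0, 0, 0, 1]⟩,
   ⟨[0, 0, 1, 2, 1, 0, 1, 0, 0], 0, 2, 1, [2, 3, 4], [0, 0, 1, 0, 0, 0, 1], [0, 0, 0, 1], [0, 0, 0, 0, 1, 0, 1]⟩,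
   ⟨[0, 0, 2, 0, 0, 0, 0, 0, 4], 0, 0, 8, [1, 0, 0, 9], [0, 0, 1], [0, 0, 0, 0, 0, 0, 0, 0, 1], []⟩,
   ⟨[0, 0, 2, 0, 0, 0, 0, 1, 2], 0, 0, 8, [1, 0, 0, 9], [0, 0, 1], [0, 0, 0, 0, 0, 0, 0, 2, 1], []⟩,
   ⟨[0, 0, 2, 0, 0, 0, 0, 2, 0], 0, 0, 1, [1, 0, 0, 9], [0, 0, 0, 0, 0, 0, 0, 1], [0, 0, 2], []⟩,
   ⟨[0, 0, 2, 0, 0, 0, 1, 0, 1], 0, 0, 8, [1, 0, 0, 9], [0, 0, 1], [0, 0, 0, 0, 0, 0, 3, 0, 1], []⟩,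
   ⟨[0, 0, 2, 0, 0, 1, 0, 0, 0], 0, 0, 1, [1, 0, 0, 9], [0, 0, 0, 0, 0, 2], [0, 0, 2], []⟩,
   ⟨[0, 0, 2, 0, 1, 2, 0, 0, 0], 0, 0, 5, [1, 0, 0, 9], [0, 0, 0, 0, 0, 1], [0, 0, 1, 0, 2], []⟩,
   ⟨[0, 0, 2, 0, 2, 0, 1, 0, 0], 0, 2, 1, [2, 3, 4], [0, 0, 1], [0, 0, 0, 0, 0, 0, 2], [0, 0, 0, 0, 1]⟩,
   ⟨[0, 0, 2, 1, 0, 1, 1, 0, 0], 3, 3, 5, [6], [0, 0, 0, 0, 0, 1], [0, 0, 1, 0, 0, 0, 3], []⟩,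
   ⟨[0, 0, 2, 1, 1, 0, 0, 1, 0], 0, 2, 1, [2, 3, 4], [0, 0, 1], [0, 0, 0, 1, 0, 0, 0, 1], [0, 0, 0, 0, 1, 0, 0, 1]⟩,
   ⟨[0, 0, 2, 2, 0, 0, 0, 0, 1], 0, 2, 1, [2, 3, 4], [0, 0, 1], [0, 0, 0, 1], [0, 0, 0, 0, 0, 0, 0, 0, 2]⟩,
   ⟨[0, 0, 2, 2, 2, 0, 0, 0, 0], 0, 2, 1, [2, 3, 4], [0, 0, 1], [0, 0, 0, 1], [0, 0, 0, 0, 1]⟩,
   ⟨[0, 0, 3, 0, 0, 0, 2, 0, 0], 0, 2, 1, [2, 6, 0], [0, 0, 1], [0, 0, 0, 0, 0, 0, 1], []⟩,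
   ⟨[0, 0, 3, 0, 0, 1, 0, 1, 0], 0, 0, 5, [1, 0, 0, 9], [0, 0, 0, 0, 0, 1, 0, 1], [0, 0, 1, 0, 0, 0, 0, 1], []⟩,
   ⟨[0, 0, 3, 1, 0, 0, 0, 0, 0], 0, 0, 5, [1, 0, 0, 9], [0, 0, 0, 2], [0, 0, 1, 1], []⟩,
   ⟨[0, 0, 4, 0, 0, 2, 0, 0, 0], 0, 0, 5, [1, 0, 0, 9], [0, 0, 0, 0, 0, 1], [0, 0, 1], []⟩,
   ⟨[0, 1, 0, 0, 0, 0, 0, 0, 1], 0, 0, 1, [1, 0, 0, 9], [0, 0, 0, 0, 0, 0, 0, 0, 1], [0, 1, 0, 0, 0, 0, 0, 0, 1], []⟩,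
   ⟨[0, 1, 0, 0, 0, 0, 2, 2, 0], 0, 2, 1, [5, 6, 7], [0, 2], [0, 0, 0, 0, 0, 0, 1], [0, 0, 0, 0, 0, 0, 0, 1]⟩,
   ⟨[0, 1, 0, 0, 0, 1, 2, 0, 0], 0, 2, 1, [1, 2, 6], [0, 1, 0, 0, 0, 1], [0, 0, 0, 0, 0, 2], [0, 0, 0, 0, 0, 0, 1]⟩,
   ⟨[0, 1, 0, 0, 0, 2, 0, 0, 2], 0, 0, 2, [1, 0, 0, 9], [0, 0, 0, 0, 0, 0, 0, 0, 1], [0, 2, 0, 0, 0, 1], []⟩,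
   ⟨[0, 1, 0, 0, 0, 2, 0, 1, 0], 0, 0, 2, [1, 0, 0, 9], [0, 0, 0, 0, 0, 0, 0, 2], [0, 2, 0, 0, 0, 1], []⟩,
   ⟨[0, 1, 0, 0, 1, 0, 0, 2, 1], 1, 3, 4, [8], [0, 0, 0, 0, 1], [0, 0, 0, 0, 0, 0, 0, 1, 5], []⟩,
   ⟨[0, 1, 0, 0, 1, 0, 1, 0, 2], 0, 2, 1, [4, 6, 8], [0, 1, 0, 0, 1], [0, 1, 0, 0, 0, 0, 1], [0, 0, 0, 0, 0, 0, 0, 0, 1]⟩,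
   ⟨[0, 1, 0, 0, 1, 0, 1, 1, 0], 1, 3, 4, [6], [0, 0, 0, 0, 1], [0, 0, 0, 0, 0, 0, 6, 1], []⟩,
   ⟨[0, 1, 0, 0, 1, 1, 0, 0, 1], 0, 0, 2, [1, 0, 0, 9], [0, 0, 0, 0, 1, 0, 0, 0, 1], [0, 2, 0, 0, 1, 1], []⟩,
   ⟨[0, 1, 0, 0, 2, 0, 0, 0, 0], 0, 0, 2, [1, 0, 0, 9], [0, 0, 0, 0, 1], [0, 2, 0, 0, 1], []⟩,
   ⟨[0, 1, 0, 0, 3, 1, 0, 0, 0], 0, 0, 7, [1, 0, 0, 9], [0, 1, 0, 0, 0, 1], [0, 0, 0, 0, 1, 1], []⟩,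
   ⟨[0, 1, 0, 1, 0, 0, 0, 1, 2], 0, 2, 1, [3, 7, 8], [0, 1, 0, 1], [0, 1, 0, 0, 0, 0, 0, 1], [0, 0, 0, 0, 0, 0, 0, 0, 1]⟩,
   ⟨[0, 1, 0, 1, 0, 0, 0, 2, 0], 0, 0, 1, [1, 0, 0, 9], [0, 0, 0, 0, 0, 0, 0, 1], [0, 1, 0, 3], []⟩,
   ⟨[0, 1, 0, 1, 0, 0, 1, 0, 1], 3, 3, 1, [6], [0, 0, 0, 0, 0, 0, 0, 0, 1], [0, 1, 0, 0, 0, 0, 6, 0, 1], []⟩,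
   ⟨[0, 1, 0, 1, 0, 1, 0, 0, 0], 0, 0, 1, [1, 0, 0, 9], [0, 0, 0, 0, 0, 2], [0, 1, 0, 3], []⟩,
   ⟨[0, 1, 0, 1, 1, 2, 0, 0, 0], 0, 2, 1, [1, 3, 5], [0, 1, 0, 0, 1], [0, 0, 0, 1, 1], [0, 0, 0, 0, 0, 1]⟩,
   ⟨[0, 1, 0, 1, 2, 0, 1, 0, 0], 3, 3, 7, [6], [0, 1], [0, 0, 0, 0, 1, 0, 6], []⟩,
   ⟨[0, 1, 0, 2, 0, 1, 1, 0, 0], 0, 2, 1, [1, 3, 5], [0, 1, 0, 0, 0, 0, 1], [0, 0, 0, 1], [0, 0, 0, 0, 0, 1, 1]⟩,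
   ⟨[0, 1, 1, 0, 0, 0, 0, 0, 3], 0, 0, 8, [1, 0, 0, 9], [0, 1, 1], [0, 1, 0, 0, 0, 0, 0, 0, 1], []⟩,
   ⟨[0, 1, 1, 0, 0, 0, 0, 1, 1], 0, 0, 1, [1, 0, 0, 9], [0, 0, 0, 0, 0, 0, 0, 1, 1], [0, 1, 2, 0, 0, 0, 0, 0, 1], []⟩,
   ⟨[0, 1, 1, 0, 0, 0, 1, 0, 0], 0, 0, 1, [1, 0, 0, 9], [0, 0, 0, 0, 0, 0, 2], [0, 1, 2, 0, 0, 0, 1], []⟩,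
   ⟨[0, 1, 1, 0, 2, 0, 0, 1, 0], 2, 3, 7, [7], [0, 1], [0, 0, 0, 0, 1, 0, 0, 4], []⟩,
   ⟨[0, 1, 1, 1, 0, 0, 2, 0, 0], 0, 2, 1, [1, 2, 6], [0, 1, 0, 1], [0, 0, 1, 1], [0, 0, 0, 0, 0, 0, 1]⟩,
   ⟨[0, 1, 1, 2, 0, 0, 0, 0, 0], 0, 2, 1, [1, 3, 5], [0, 0, 2], [0, 0, 0, 1], [0, 2]⟩,
   ⟨[0, 1, 2, 0, 0, 0, 1, 1, 0], 0, 2, 1, [1, 2, 6], [0, 1, 0, 0, 0, 0, 0, 1], [0, 0, 1], [0, 0, 0, 0, 0, 0, 1, 1]⟩,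
   ⟨[0, 1, 2, 0, 0, 1, 0, 0, 1], 1, 3, 5, [8], [0, 0, 0, 0, 0, 1], [0, 0, 1, 0, 0, 0, 0, 0, 4], []⟩,
   ⟨[0, 1, 2, 0, 1, 0, 0, 0, 0], 0, 0, 5, [1, 0, 0, 9], [0, 2], [0, 0, 1, 0, 2], []⟩,
   ⟨[0, 1, 4, 0, 0, 0, 0, 0, 0], 0, 0, 5, [1, 0, 0, 9], [0, 2], [0, 0, 1], []⟩,
   ⟨[0, 2, 0, 0, 0, 0, 0, 0, 2], 0, 0, 1, [1, 0, 0, 9], [0, 0, 0, 0, 0, 0, 0, 0, 1], [0, 1, 0, 0, 0, 0, 0, 0, 1], []⟩,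
   ⟨[0, 2, 0, 0, 0, 0, 0, 1, 0], 0, 0, 1, [1, 0, 0, 9], [0, 0, 0, 0, 0, 0, 0, 1], [0, 1], []⟩,
   ⟨[0, 2, 0, 0, 0, 2, 1, 0, 0], 0, 2, 1, [1, 3, 5], [0, 1], [0, 0, 0, 0, 0, 0, 2], [0, 0, 0, 0, 0, 1]⟩,
   ⟨[0, 2, 0, 0, 1, 0, 2, 0, 0], 0, 2, 1, [1, 2, 6], [0, 1], [0, 0, 0, 0, 2], [0, 0, 0, 0, 0, 0, 1]⟩,
   ⟨[0, 2, 0, 0, 1, 1, 0, 1, 0], 4, 3, 1, [5], [0, 0, 0, 0, 0, 0, 0, 1], [0, 1, 0, 0, 0, 5], []⟩,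
   ⟨[0, 2, 0, 0, 2, 0, 0, 0, 1], 0, 0, 7, [1, 0, 0, 9], [0, 1], [0, 0, 0, 0, 1, 0, 0, 0, 2], []⟩,
   ⟨[0, 2, 0, 0, 4, 0, 0, 0, 0], 0, 0, 7, [1, 0, 0, 9], [0, 1], [0, 0, 0, 0, 1], []⟩,
   ⟨[0, 2, 0, 1, 0, 0, 1, 1, 0], 3, 3, 1, [6], [0, 0, 0, 0, 0, 0, 0, 1], [0, 1, 0, 0, 0, 0, 6], []⟩,
   ⟨[0, 2, 0, 1, 0, 1, 0, 0, 1], 0, 2, 1, [1, 3, 5], [0, 1], [0, 0, 0, 1, 0, 0, 0, 0, 1], [0, 0, 0, 0, 0, 1, 0, 0, 1]⟩,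
   ⟨[0, 2, 0, 1, 1, 0, 0, 0, 0], 0, 0, 7, [1, 0, 0, 9], [0, 1], [0, 0, 0, 3, 1], []⟩,
   ⟨[0, 2, 0, 2, 0, 2, 0, 0, 0], 0, 2, 1, [1, 3, 5], [0, 1], [0, 0, 0, 1], [0, 0, 0, 0, 0, 1]⟩,
   ⟨[0, 2, 1, 0, 0, 0, 0, 2, 0], 0, 0, 1, [1, 0, 0, 9], [0, 0, 0, 0, 0, 0, 0, 1], [0, 1, 2], []⟩,
   ⟨[0, 2, 1, 0, 0, 0, 1, 0, 1], 0, 2, 1, [1, 2, 6], [0, 1], [0, 0, 1, 0, 0, 0, 0, 0, 1], [0, 0, 0, 0, 0, 0, 1, 0, 1]⟩,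
   ⟨[0, 2, 1, 0, 0, 1, 0, 0, 0], 0, 0, 1, [1, 0, 0, 9], [0, 0, 0, 0, 0, 2], [0, 1, 2], []⟩,
   ⟨[0, 2, 2, 0, 0, 0, 2, 0, 0], 0, 2, 1, [1, 2, 6], [0, 1], [0, 0, 1], [0, 0, 0, 0, 0, 0, 1]⟩,
   ⟨[0, 2, 2, 1, 0, 0, 0, 0, 0], 0, 2, 1, [1, 2, 6], [0, 1], [0, 0, 1], [0, 0, 0, 2]⟩,
   ⟨[0, 3, 0, 0, 0, 0, 0, 1, 1], 0, 0, 1, [1, 0, 0, 9], [0, 0, 0, 0, 0, 0, 0, 1, 1], [0, 1, 0, 0, 0, 0, 0, 0, 1], []⟩,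
   ⟨[0, 3, 0, 0, 0, 0, 1, 0, 0], 0, 0, 1, [1, 0, 0, 9], [0, 0, 0, 0, 0, 0, 2], [0, 1, 0, 0, 0, 0, 1], []⟩,
   ⟨[0, 3, 0, 2, 0, 0, 0, 0, 0], 0, 2, 1, [1, 3, 0], [0, 1], [0, 0, 0, 1], []⟩,
   ⟨[0, 4, 0, 0, 0, 0, 0, 2, 0], 0, 0, 1, [1, 0, 0, 9], [0, 0, 0, 0, 0, 0, 0, 1], [0, 1], []⟩,
   ⟨[0, 4, 0, 0, 0, 1, 0, 0, 0], 0, 0, 1, [1, 0, 0, 9], [0, 0, 0, 0, 0, 2], [0, 1], []⟩]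

theorem cs9_ok : ∀ c ∈ cs9, c.ok 9 := by decide +kernel

/-- exponent 10 -/
def cs10 : List Cert :=
  [⟨[0, 0, 0, 0, 0, 0, 0, 0, 0, 0], 0, 0, 1, [1, 0, 0, 10], [], [], []⟩,
   ⟨[0, 0, 0, 0, 0, 0, 0, 0, 5, 0], 0, 1, 3, [1, 1, 1, 6], [0, 0, 0, 0, 0, 0, 0, 0, 1], [], []⟩,
   ⟨[0, 0, 0, 0, 0, 0, 0, 1, 3, 1], 0, 1, 3, [1, 0, 1, 6], [0, 0, 0, 0, 0, 0, 0, 0, 1, 1], [0, 0, 0, 0, 0, 0, 0, 1, 0, 3], []⟩,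
   ⟨[0, 0, 0, 0, 0, 0, 0, 2, 1, 2], 0, 2, 1, [4, 7, 9], [0, 0, 0, 0, 0, 0, 0, 0, 2], [0, 0, 0, 0, 0, 0, 0, 1], [0, 0, 0, 0, 0, 0, 0, 0, 0, 1]⟩,
   ⟨[0, 0, 0, 0, 0, 0, 0, 2, 2, 0], 0, 1, 3, [1, 0, 1, 6], [0, 0, 0, 0, 0, 0, 0, 0, 1], [0, 0, 0, 0, 0, 0, 0, 1], []⟩,
   ⟨[0, 0, 0, 0, 0, 0, 0, 3, 0, 1], 0, 0, 3, [1, 0, 0, 10], [0, 0, 0, 0, 0, 0, 0, 0, 0, 2], [0, 0, 0, 0, 0, 0, 0, 1, 0, 1], []⟩,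
   ⟨[0, 0, 0, 0, 0, 0, 1, 0, 2, 2], 0, 1, 9, [1, 1, 5, 0], [0, 0, 0, 0, 0, 0, 1], [0, 0, 0, 0, 0, 0, 0, 0, 2, 1], []⟩,
   ⟨[0, 0, 0, 0, 0, 0, 1, 0, 3, 0], 0, 1, 3, [1, 0, 1, 6], [0, 0, 0, 0, 0, 0, 1, 0, 1], [0, 0, 0, 0, 0, 0, 4], []⟩,
   ⟨[0, 0, 0, 0, 0, 0, 1, 1, 0, 3], 0, 1, 9, [1, 0, 1, 6], [0, 0, 0, 0, 0, 0, 1, 3], [0, 0, 0, 0, 0, 0, 0, 1, 0, 1], []⟩,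
   ⟨[0, 0, 0, 0, 0, 0, 1, 1, 1, 1], 0, 1, 3, [1, 0, 1, 6], [0, 0, 0, 0, 0, 0, 2, 0, 1, 1], [0, 0, 0, 0, 0, 0, 0, 1, 0, 3], []⟩,
   ⟨[0, 0, 0, 0, 0, 0, 1, 2, 0, 0], 0, 0, 3, [1, 0, 0, 10], [0, 0, 0, 0, 0, 0, 1], [0, 0, 0, 0, 0, 0, 0, 1], []⟩,
   ⟨[0, 0, 0, 0, 0, 0, 2, 0, 0, 2], 0, 1, 9, [1, 0, 1, 6], [0, 0, 0, 0, 0, 0, 1], [0, 0, 0, 0, 0, 0, 0, 0, 0, 1], []⟩,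
   ⟨[0, 0, 0, 0, 0, 0, 2, 0, 1, 0], 0, 1, 1, [1, 0, 1, 6], [0, 0, 0, 0, 0, 0, 1, 0, 2], [0, 0, 0, 0, 0, 0, 2], []⟩,
   ⟨[0, 0, 0, 0, 0, 0, 2, 4, 0, 0], 0, 0, 3, [1, 0, 0, 10], [0, 0, 0, 0, 0, 0, 1], [0, 0, 0, 0, 0, 0, 0, 1], []⟩,
   ⟨[0, 0, 0, 0, 0, 0, 4, 0, 2, 0], 0, 1, 9, [1, 0, 1, 6], [0, 0, 0, 0, 0, 0, 1], [0, 0, 0, 0, 0, 0, 0, 0, 2], []⟩,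
   ⟨[0, 0, 0, 0, 0, 0, 5, 0, 0, 0], 0, 1, 9, [1, 1, 1, 6], [0, 0, 0, 0, 0, 0, 1], [], []⟩,
   ⟨[0, 0, 0, 0, 0, 1, 0, 0, 0, 5], 0, 1, 9, [1, 1, 5, 0], [0, 0, 0, 0, 0, 1], [0, 0, 0, 0, 0, 1, 0, 0, 0, 1], []⟩,
   ⟨[0, 0, 0, 0, 0, 1, 0, 0, 1, 3], 0, 1, 9, [1, 0, 1, 6], [0, 0, 0, 0, 0, 1, 0, 0, 3], [0, 0, 0, 0, 0, 1, 0, 0, 0, 1], []⟩,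
   ⟨[0, 0, 0, 0, 0, 1, 0, 0, 2, 1], 0, 1, 3, [1, 0, 1, 6], [0, 0, 0, 0, 0, 1, 0, 0, 1, 1], [0, 0, 0, 0, 0, 1, 0, 0, 0, 3], []⟩,
   ⟨[0, 0, 0, 0, 0, 1, 0, 1, 0, 2], 0, 1, 9, [1, 0, 1, 6], [0, 0, 0, 0, 0, 1, 0, 3], [0, 0, 0, 0, 0, 1, 0, 1, 0, 1], []⟩,
   ⟨[0, 0, 0, 0, 0, 1, 0, 1, 1, 0], 0, 1, 1, [1, 0, 1, 6], [0, 0, 0, 0, 0, 1, 0, 1, 2], [0, 0, 0, 0, 0, 1, 0, 3], []⟩,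
   ⟨[0, 0, 0, 0, 0, 1, 0, 5, 0, 0], 0, 1, 3, [1, 1, 5, 0], [0, 0, 0, 0, 0, 1], [0, 0, 0, 0, 0, 1, 0, 1], []⟩,
   ⟨[0, 0, 0, 0, 0, 1, 1, 0, 0, 1], 0, 1, 1, [1, 0, 1, 6], [0, 0, 0, 0, 0, 1, 1, 0, 0, 2], [0, 0, 0, 0, 0, 1, 2, 0, 0, 1], []⟩,
   ⟨[0, 0, 0, 0, 0, 1, 1, 3, 1, 0], 0, 1, 3, [1, 0, 1, 6], [0, 0, 0, 0, 0, 1, 2, 0, 1], [0, 0, 0, 0, 0, 1, 0, 1], []⟩,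
   ⟨[0, 0, 0, 0, 0, 1, 3, 0, 1, 1], 0, 1, 9, [1, 0, 1, 6], [0, 0, 0, 0, 0, 1, 1], [0, 0, 0, 0, 0, 1, 0, 0, 2, 1], []⟩,
   ⟨[0, 0, 0, 0, 0, 1, 3, 1, 0, 0], 0, 1, 9, [1, 0, 1, 6], [0, 0, 0, 0, 0, 1, 1], [0, 0, 0, 0, 0, 1, 0, 3], []⟩,
   ⟨[0, 0, 0, 0, 0, 2, 0, 0, 0, 0], 0, 1, 1, [1, 0, 1, 6], [0, 0, 0, 0, 0, 1], [0, 0, 0, 0, 0, 1], []⟩,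
   ⟨[0, 0, 0, 0, 0, 2, 0, 2, 2, 0], 0, 1, 3, [1, 0, 1, 6], [0, 0, 0, 0, 0, 1, 0, 0, 1], [0, 0, 0, 0, 0, 1, 0, 1], []⟩,
   ⟨[0, 0, 0, 0, 0, 2, 0, 3, 0, 1], 9, 1, 3, [2, 1, 5, 0], [0, 0, 0, 0, 0, 1], [0, 0, 0, 0, 0, 1, 0, 1], []⟩,
   ⟨[0, 0, 0, 0, 0, 2, 1, 2, 0, 0], 0, 1, 3, [1, 0, 1, 6], [0, 0, 0, 0, 0, 1, 2], [0, 0, 0, 0, 0, 1, 0, 1], []⟩,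
   ⟨[0, 0, 0, 0, 0, 2, 2, 0, 0, 2], 0, 1, 9, [1, 0, 1, 6], [0, 0, 0, 0, 0, 1, 1], [0, 0, 0, 0, 0, 1, 0, 0, 0, 1], []⟩,
   ⟨[0, 0, 0, 0, 0, 2, 2, 0, 1, 0], 0, 1, 9, [1, 0, 1, 6], [0, 0, 0, 0, 0, 1, 1], [0, 0, 0, 0, 0, 1, 0, 0, 2], []⟩,
   ⟨[0, 0, 0, 0, 0, 3, 0, 1, 1, 0], 0, 1, 3, [1, 0, 1, 6], [0, 0, 0, 0, 0, 1, 0, 0, 1], [0, 0, 0, 0, 0, 1, 0, 1], []⟩,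
   ⟨[0, 0, 0, 0, 0, 3, 1, 0, 0, 1], 0, 1, 9, [1, 0, 1, 6], [0, 0, 0, 0, 0, 1, 1], [0, 0, 0, 0, 0, 1, 0, 0, 0, 1], []⟩,
   ⟨[0, 0, 0, 0, 0, 4, 0, 0, 0, 0], 0, 1, 1, [1, 0, 1, 6], [0, 0, 0, 0, 0, 1], [0, 0, 0, 0, 0, 1], []⟩,
   ⟨[0, 0, 0, 0, 1, 0, 0, 0, 0, 4], 0, 0, 9, [1, 0, 0, 10], [0, 0, 0, 0, 2], [0, 0, 0, 0, 0, 0, 0, 0, 0, 1], []⟩,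
   ⟨[0, 0, 0, 0, 1, 0, 0, 0, 1, 2], 0, 0, 9, [1, 0, 0, 10], [0, 0, 0, 0, 2], [0, 0, 0, 0, 0, 0, 0, 0, 2, 1], []⟩,
   ⟨[0, 0, 0, 0, 1, 0, 0, 0, 2, 0], 0, 0, 1, [1, 0, 0, 10], [0, 0, 0, 0, 0, 0, 0, 0, 1], [0, 0, 0, 0, 4], []⟩,
   ⟨[0, 0, 0, 0, 1, 0, 0, 1, 0, 1], 0, 1, 1, [1, 0, 1, 6], [0, 0, 0, 0, 1, 0, 0, 1, 0, 2], [0, 0, 0, 0, 0, 0, 0, 3, 0, 1], []⟩,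
   ⟨[0, 0, 0, 0, 1, 0, 1, 0, 0, 0], 0, 0, 1, [1, 0, 0, 10], [0, 0, 0, 0, 0, 0, 2], [0, 0, 0, 0, 4], []⟩,
   ⟨[0, 0, 0, 0, 1, 0, 2, 2, 0, 0], 0, 0, 3, [1, 0, 0, 10], [0, 0, 0, 0, 0, 0, 1], [0, 0, 0, 0, 2, 0, 0, 1], []⟩,
   ⟨[0, 0, 0, 0, 1, 0, 3, 0, 1, 0], 0, 1, 9, [1, 0, 1, 6], [0, 0, 0, 0, 1, 0, 1], [0, 0, 0, 0, 2, 0, 0, 0, 2], []⟩,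
   ⟨[0, 0, 0, 0, 1, 1, 0, 1, 3, 0], 0, 1, 3, [1, 0, 1, 6], [0, 0, 0, 0, 0, 1, 0, 0, 1], [0, 0, 0, 0, 2, 1, 0, 1], []⟩,
   ⟨[0, 0, 0, 0, 1, 1, 0, 2, 1, 1], 9, 1, 3, [2, 1, 5, 0], [0, 0, 0, 0, 0, 1, 0, 0, 1], [0, 0, 0, 0, 2, 1, 0, 1], []⟩,
   ⟨[0, 0, 0, 0, 1, 1, 0, 3, 0, 0], 0, 1, 3, [1, 0, 1, 6], [0, 0, 0, 0, 3, 1], [0, 0, 0, 0, 0, 1, 0, 1], []⟩,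
   ⟨[0, 0, 0, 0, 1, 1, 1, 1, 1, 0], 0, 1, 3, [1, 0, 1, 6], [0, 0, 0, 0, 0, 1, 2, 0, 1], [0, 0, 0, 0, 2, 1, 0, 1], []⟩,
   ⟨[0, 0, 0, 0, 1, 1, 2, 0, 0, 1], 0, 1, 9, [1, 0, 1, 6], [0, 0, 0, 0, 1, 1, 1], [0, 0, 0, 0, 2, 1, 0, 0, 0, 1], []⟩,
   ⟨[0, 0, 0, 0, 1, 2, 0, 0, 2, 0], 0, 1, 3, [1, 0, 1, 6], [0, 0, 0, 0, 0, 1, 0, 0, 1], [0, 0, 0, 0, 2, 1], []⟩,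
   ⟨[0, 0, 0, 0, 1, 2, 0, 1, 0, 1], 9, 1, 3, [2, 1, 5, 0], [0, 0, 0, 0, 0, 1], [0, 0, 0, 0, 2, 1, 0, 1], []⟩,
   ⟨[0, 0, 0, 0, 1, 2, 1, 0, 0, 0], 0, 1, 1, [1, 0, 1, 6], [0, 0, 0, 0, 1, 1, 1], [0, 0, 0, 0, 0, 1, 2], []⟩,
   ⟨[0, 0, 0, 0, 2, 0, 0, 0, 4, 0], 0, 1, 3, [1, 0, 1, 6], [0, 0, 0, 0, 0, 0, 0, 0, 1], [0, 0, 0, 0, 2], []⟩,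
   ⟨[0, 0, 0, 0, 2, 0, 0, 2, 0, 2], 0, 2, 1, [4, 7, 9], [0, 0, 0, 0, 1], [0, 0, 0, 0, 0, 0, 0, 1], [0, 0, 0, 0, 0, 0, 0, 0, 0, 1]⟩,
   ⟨[0, 0, 0, 0, 2, 0, 0, 2, 1, 0], 0, 1, 3, [1, 1, 5, 0], [0, 0, 0, 0, 0, 0, 0, 0, 1], [0, 0, 0, 0, 2, 0, 0, 1], []⟩,
   ⟨[0, 0, 0, 0, 2, 0, 1, 0, 2, 0], 0, 1, 3, [1, 0, 1, 6], [0, 0, 0, 0, 0, 0, 2, 0, 1], [0, 0, 0, 0, 2], []⟩,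
   ⟨[0, 0, 0, 0, 2, 0, 1, 1, 0, 1], 9, 1, 3, [2, 1, 5, 0], [0, 0, 0, 0, 0, 0, 2], [0, 0, 0, 0, 2, 0, 0, 1], []⟩,
   ⟨[0, 0, 0, 0, 2, 0, 2, 0, 0, 0], 0, 1, 1, [1, 0, 1, 6], [0, 0, 0, 0, 1, 0, 1], [0, 0, 0, 0, 0, 0, 2], []⟩,
   ⟨[0, 0, 0, 0, 2, 1, 0, 0, 1, 1], 9, 1, 3, [2, 1, 5, 0], [0, 0, 0, 0, 0, 1, 0, 0, 1], [0, 0, 0, 0, 2, 1], []⟩,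
   ⟨[0, 0, 0, 0, 2, 1, 0, 1, 0, 0], 0, 1, 1, [1, 0, 1, 6], [0, 0, 0, 0, 1, 1, 0, 1], [0, 0, 0, 0, 0, 1, 0, 3], []⟩,
   ⟨[0, 0, 0, 0, 3, 0, 0, 0, 0, 2], 0, 2, 1, [4, 9, 0], [0, 0, 0, 0, 1], [0, 0, 0, 0, 0, 0, 0, 0, 0, 1], []⟩,
   ⟨[0, 0, 0, 0, 3, 0, 0, 0, 1, 0], 0, 1, 1, [1, 0, 1, 6], [0, 0, 0, 0, 1, 0, 0, 0, 1], [0, 0, 0, 0, 0, 0, 0, 0, 4], []⟩,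
   ⟨[0, 0, 0, 0, 5, 0, 0, 0, 0, 0], 0, 1, 1, [1, 1, 1, 6], [0, 0, 0, 0, 1], [], []⟩,
   ⟨[0, 0, 0, 1, 0, 0, 0, 0, 0, 3], 0, 0, 9, [1, 0, 0, 10], [0, 0, 0, 2], [0, 0, 0, 1, 0, 0, 0, 0, 0, 1], []⟩,
   ⟨[0, 0, 0, 1, 0, 0, 0, 0, 1, 1], 0, 0, 1, [1, 0, 0, 10], [0, 0, 0, 0, 0, 0, 0, 0, 1, 1], [0, 0, 0, 3, 0, 0, 0, 0, 0, 1], []⟩,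
   ⟨[0, 0, 0, 1, 0, 0, 0, 1, 0, 0], 0, 0, 1, [1, 0, 0, 10], [0, 0, 0, 0, 0, 0, 0, 2], [0, 0, 0, 3, 0, 0, 0, 1], []⟩,
   ⟨[0, 0, 0, 1, 0, 0, 1, 3, 0, 0], 0, 0, 3, [1, 0, 0, 10], [0, 0, 0, 1, 0, 0, 1], [0, 0, 0, 1, 0, 0, 0, 1], []⟩,
   ⟨[0, 0, 0, 1, 0, 0, 2, 1, 1, 0], 3, 1, 9, [2, 1, 5, 0], [0, 0, 0, 0, 0, 0, 1], [0, 0, 0, 0, 0, 0, 0, 3, 2], []⟩,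
   ⟨[0, 0, 0, 1, 0, 0, 3, 0, 0, 1], 0, 1, 9, [1, 0, 1, 6], [0, 0, 0, 1, 0, 0, 1], [0, 0, 0, 3, 0, 0, 0, 0, 0, 1], []⟩,
   ⟨[0, 0, 0, 1, 0, 1, 0, 2, 1, 0], 0, 1, 3, [1, 0, 1, 6], [0, 0, 0, 2, 0, 1, 0, 0, 1], [0, 0, 0, 1, 0, 1, 0, 1], []⟩,
   ⟨[0, 0, 0, 1, 0, 1, 1, 0, 1, 2], 3, 1, 9, [2, 1, 5, 0], [0, 0, 0, 0, 0, 1, 1], [0, 0, 0, 0, 0, 1, 0, 0, 2, 1], []⟩,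
   ⟨[0, 0, 0, 1, 0, 1, 1, 0, 2, 0], 3, 1, 9, [2, 1, 5, 0], [0, 0, 0, 0, 0, 1, 1], [0, 0, 0, 0, 0, 1, 0, 0, 2], []⟩,
   ⟨[0, 0, 0, 1, 0, 1, 1, 1, 0, 1], 3, 1, 9, [2, 1, 5, 0], [0, 0, 0, 0, 0, 1, 1], [0, 0, 0, 0, 0, 1, 0, 3, 0, 1], []⟩,
   ⟨[0, 0, 0, 1, 0, 1, 2, 0, 0, 0], 0, 1, 7, [1, 1, 5, 0], [0, 0, 0, 0, 0, 1], [0, 0, 0, 1, 0, 1, 2], []⟩,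
   ⟨[0, 0, 0, 1, 0, 2, 0, 0, 0, 3], 3, 1, 9, [2, 1, 5, 0], [0, 0, 0, 0, 0, 1], [0, 0, 0, 0, 0, 1, 0, 0, 0, 1], []⟩,
   ⟨[0, 0, 0, 1, 0, 2, 0, 0, 1, 1], 3, 1, 9, [2, 1, 5, 0], [0, 0, 0, 0, 0, 1], [0, 0, 0, 0, 0, 1, 0, 0, 2, 1], []⟩,
   ⟨[0, 0, 0, 1, 0, 2, 0, 1, 0, 0], 0, 1, 3, [1, 0, 1, 6], [0, 0, 0, 2, 0, 1], [0, 0, 0, 1, 0, 1, 0, 1], []⟩,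
   ⟨[0, 0, 0, 1, 1, 0, 0, 1, 2, 0], 0, 1, 3, [1, 0, 1, 6], [0, 0, 0, 2, 0, 0, 0, 0, 1], [0, 0, 0, 1, 2, 0, 0, 1], []⟩,
   ⟨[0, 0, 0, 1, 1, 0, 0, 2, 0, 1], 9, 1, 3, [2, 1, 5, 0], [0, 0, 0, 2], [0, 0, 0, 1, 2, 0, 0, 1], []⟩,
   ⟨[0, 0, 0, 1, 1, 0, 1, 0, 1, 1], 3, 1, 9, [2, 1, 5, 0], [0, 0, 0, 0, 1, 0, 1], [0, 0, 0, 0, 2, 0, 0, 0, 2, 1], []⟩,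
   ⟨[0, 0, 0, 1, 1, 0, 1, 1, 0, 0], 0, 0, 3, [1, 0, 0, 10], [0, 0, 0, 1, 0, 0, 1], [0, 0, 0, 1, 2, 0, 0, 1], []⟩,
   ⟨[0, 0, 0, 1, 1, 1, 0, 0, 0, 2], 3, 1, 9, [2, 1, 5, 0], [0, 0, 0, 0, 1, 1], [0, 0, 0, 0, 2, 1, 0, 0, 0, 1], []⟩,
   ⟨[0, 0, 0, 1, 1, 1, 0, 0, 1, 0], 0, 1, 1, [1, 0, 1, 6], [0, 0, 0, 0, 1, 1, 0, 0, 2], [0, 0, 0, 3, 0, 1], []⟩,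
   ⟨[0, 0, 0, 1, 2, 0, 0, 0, 0, 1], 0, 1, 1, [1, 0, 1, 6], [0, 0, 0, 0, 1, 0, 0, 0, 0, 2], [0, 0, 0, 3, 0, 0, 0, 0, 0, 1], []⟩,
   ⟨[0, 0, 0, 1, 3, 1, 0, 0, 0, 0], 0, 1, 1, [1, 0, 1, 6], [0, 0, 0, 0, 1, 1], [0, 0, 0, 3, 0, 1], []⟩,
   ⟨[0, 0, 0, 2, 0, 0, 0, 0, 2, 2], 0, 2, 1, [3, 8, 9], [0, 0, 0, 1], [0, 0, 0, 0, 0, 0, 0, 0, 1], [0, 0, 0, 0, 0, 0, 0, 0, 0, 1]⟩,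
   ⟨[0, 0, 0, 2, 0, 0, 0, 0, 3, 0], 0, 2, 1, [8, 3, 0], [0, 0, 0, 0, 0, 0, 0, 0, 1], [0, 0, 0, 1], []⟩,
   ⟨[0, 0, 0, 2, 0, 0, 0, 1, 1, 1], 0, 2, 1, [3, 8, 9], [0, 0, 0, 1], [0, 0, 0, 0, 0, 0, 0, 1, 1], [0, 0, 0, 0, 0, 0, 0, 1, 0, 1]⟩,
   ⟨[0, 0, 0, 2, 0, 0, 0, 2, 0, 0], 0, 0, 3, [1, 0, 0, 10], [0, 0, 0, 1], [0, 0, 0, 1, 0, 0, 0, 1], []⟩,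
   ⟨[0, 0, 0, 2, 0, 0, 1, 0, 0, 2], 0, 2, 1, [3, 8, 9], [0, 0, 0, 1], [0, 0, 0, 0, 0, 0, 2], [0, 0, 0, 0, 0, 0, 0, 0, 0, 1]⟩,
   ⟨[0, 0, 0, 2, 0, 0, 1, 0, 1, 0], 0, 0, 7, [1, 0, 0, 10], [0, 0, 0, 0, 0, 0, 0, 0, 2], [0, 0, 0, 1, 0, 0, 2], []⟩,
   ⟨[0, 0, 0, 2, 0, 1, 0, 0, 0, 1], 0, 1, 7, [1, 0, 1, 6], [0, 0, 0, 0, 0, 1, 0, 0, 0, 3], [0, 0, 0, 1, 0, 1, 0, 0, 0, 1], []⟩,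
   ⟨[0, 0, 0, 2, 1, 0, 0, 0, 0, 0], 0, 1, 1, [1, 1, 5, 0], [0, 0, 0, 0, 1], [0, 0, 0, 3], []⟩,
   ⟨[0, 0, 0, 2, 1, 2, 0, 0, 0, 0], 0, 1, 7, [1, 0, 1, 6], [0, 0, 0, 0, 2, 1], [0, 0, 0, 1, 0, 1], []⟩,
   ⟨[0, 0, 0, 2, 2, 0, 1, 0, 0, 0], 0, 0, 7, [1, 0, 0, 10], [0, 0, 0, 0, 1], [0, 0, 0, 1, 0, 0, 2], []⟩,
   ⟨[0, 0, 0, 3, 0, 1, 1, 0, 0, 0], 0, 1, 7, [1, 0, 1, 6], [0, 0, 0, 0, 0, 1, 3], [0, 0, 0, 1, 0, 1], []⟩,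
   ⟨[0, 0, 0, 3, 1, 0, 0, 1, 0, 0], 0, 0, 7, [1, 0, 0, 10], [0, 0, 0, 0, 1, 0, 0, 1], [0, 0, 0, 1, 0, 0, 0, 1], []⟩,
   ⟨[0, 0, 0, 4, 0, 0, 0, 0, 1, 0], 0, 0, 7, [1, 0, 0, 10], [0, 0, 0, 0, 0, 0, 0, 0, 2], [0, 0, 0, 1], []⟩,
   ⟨[0, 0, 0, 4, 2, 0, 0, 0, 0, 0], 0, 0, 7, [1, 0, 0, 10], [0, 0, 0, 0, 1], [0, 0, 0, 1], []⟩,
   ⟨[0, 0, 0, 5, 0, 1, 0, 0, 0, 0], 0, 1, 7, [1, 1, 5, 0], [0, 0, 0, 0, 0, 1], [0, 0, 0, 1, 0, 1], []⟩,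
   ⟨[0, 0, 1, 0, 0, 0, 0, 0, 0, 2], 0, 0, 1, [1, 0, 0, 10], [0, 0, 0, 0, 0, 0, 0, 0, 0, 1], [0, 0, 2, 0, 0, 0, 0, 0, 0, 1], []⟩,
   ⟨[0, 0, 1, 0, 0, 0, 0, 0, 1, 0], 0, 0, 1, [1, 0, 0, 10], [0, 0, 0, 0, 0, 0, 0, 0, 1], [0, 0, 2], []⟩,
   ⟨[0, 0, 1, 0, 0, 0, 0, 4, 0, 0], 0, 0, 3, [1, 0, 0, 10], [0, 0, 2], [0, 0, 0, 0, 0, 0, 0, 1], []⟩,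
   ⟨[0, 0, 1, 0, 0, 0, 1, 2, 1, 0], 0, 1, 3, [1, 0, 1, 6], [0, 0, 1, 0, 0, 0, 2, 0, 1], [0, 0, 2, 0, 0, 0, 0, 1], []⟩,
   ⟨[0, 0, 1, 0, 0, 0, 2, 0, 2, 0], 0, 1, 9, [1, 0, 1, 6], [0, 0, 2, 0, 0, 0, 1], [0, 0, 0, 0, 0, 0, 0, 0, 2], []⟩,
   ⟨[0, 0, 1, 0, 0, 0, 2, 1, 0, 1], 0, 1, 9, [1, 0, 1, 6], [0, 0, 2, 0, 0, 0, 1], [0, 0, 0, 0, 0, 0, 0, 3, 0, 1], []⟩,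
   ⟨[0, 0, 1, 0, 0, 0, 3, 0, 0, 0], 0, 1, 7, [1, 1, 5, 0], [0, 0, 1], [0, 0, 0, 0, 0, 0, 2], []⟩,
   ⟨[0, 0, 1, 0, 0, 1, 0, 1, 2, 0], 0, 1, 3, [1, 0, 1, 6], [0, 0, 1, 0, 0, 1, 0, 0, 1], [0, 0, 2, 0, 0, 1, 0, 1], []⟩,
   ⟨[0, 0, 1, 0, 0, 1, 0, 2, 0, 1], 9, 1, 3, [2, 1, 5, 0], [0, 0, 1, 0, 0, 1], [0, 0, 2, 0, 0, 1, 0, 1], []⟩,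
   ⟨[0, 0, 1, 0, 0, 1, 1, 0, 0, 3], 0, 1, 9, [1, 0, 1, 6], [0, 0, 2, 0, 0, 1, 1], [0, 0, 0, 0, 0, 1, 0, 0, 0, 1], []⟩,
   ⟨[0, 0, 1, 0, 0, 1, 1, 0, 1, 1], 0, 1, 9, [1, 0, 1, 6], [0, 0, 2, 0, 0, 1, 1], [0, 0, 0, 0, 0, 1, 0, 0, 2, 1], []⟩,
   ⟨[0, 0, 1, 0, 0, 1, 1, 1, 0, 0], 0, 1, 3, [1, 0, 1, 6], [0, 0, 1, 0, 0, 1, 2], [0, 0, 2, 0, 0, 1, 0, 1], []⟩,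
   ⟨[0, 0, 1, 0, 0, 2, 0, 0, 0, 2], 0, 1, 9, [1, 0, 1, 6], [0, 0, 2, 0, 0, 1], [0, 0, 0, 0, 0, 1, 0, 0, 0, 1], []⟩,
   ⟨[0, 0, 1, 0, 0, 2, 0, 0, 1, 0], 0, 1, 1, [1, 0, 1, 6], [0, 0, 0, 0, 0, 1, 0, 0, 2], [0, 0, 2, 0, 0, 1], []⟩,
   ⟨[0, 0, 1, 0, 1, 0, 0, 0, 3, 0], 0, 1, 3, [1, 0, 1, 6], [0, 0, 1, 0, 0, 0, 0, 0, 1], [0, 0, 2, 0, 2], []⟩,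
   ⟨[0, 0, 1, 0, 1, 0, 0, 1, 1, 1], 9, 1, 3, [2, 1, 5, 0], [0, 0, 1, 0, 0, 0, 0, 0, 1], [0, 0, 2, 0, 2, 0, 0, 1], []⟩,
   ⟨[0, 0, 1, 0, 1, 0, 0, 2, 0, 0], 0, 0, 3, [1, 0, 0, 10], [0, 0, 2], [0, 0, 0, 0, 2, 0, 0, 1], []⟩,
   ⟨[0, 0, 1, 0, 1, 0, 1, 0, 0, 2], 0, 1, 9, [1, 0, 1, 6], [0, 0, 2, 0, 1, 0, 1], [0, 0, 0, 0, 2, 0, 0, 0, 0, 1], []⟩,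
   ⟨[0, 0, 1, 0, 1, 0, 1, 0, 1, 0], 0, 1, 1, [1, 0, 1, 6], [0, 0, 0, 0, 1, 0, 1, 0, 2], [0, 0, 2, 0, 0, 0, 2], []⟩,
   ⟨[0, 0, 1, 0, 1, 1, 0, 0, 0, 1], 0, 1, 1, [1, 0, 1, 6], [0, 0, 0, 0, 1, 1, 0, 0, 0, 2], [0, 0, 2, 0, 0, 1, 0, 0, 0, 1], []⟩,
   ⟨[0, 0, 1, 0, 2, 0, 0, 0, 0, 0], 0, 1, 1, [1, 1, 1, 6], [0, 0, 3, 0, 1], [], []⟩,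
   ⟨[0, 0, 1, 0, 2, 2, 0, 0, 0, 0], 0, 1, 1, [1, 0, 1, 6], [0, 0, 0, 0, 1, 1], [0, 0, 2, 0, 0, 1], []⟩,
   ⟨[0, 0, 1, 0, 3, 0, 1, 0, 0, 0], 0, 1, 1, [1, 0, 1, 6], [0, 0, 0, 0, 1, 0, 1], [0, 0, 2, 0, 0, 0, 2], []⟩,
   ⟨[0, 0, 1, 1, 0, 0, 0, 0, 2, 1], 3, 1, 9, [2, 1, 5, 0], [0, 0, 2], [0, 0, 0, 0, 0, 0, 0, 0, 2, 1], []⟩,
   ⟨[0, 0, 1, 1, 0, 0, 0, 1, 0, 2], 3, 1, 9, [2, 1, 5, 0], [0, 0, 2], [0, 0, 0, 0, 0, 0, 0, 3, 0, 1], []⟩,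
   ⟨[0, 0, 1, 1, 0, 0, 0, 1, 1, 0], 0, 1, 3, [1, 0, 1, 6], [0, 0, 1, 2, 0, 0, 0, 0, 1], [0, 0, 2, 1, 0, 0, 0, 1], []⟩,
   ⟨[0, 0, 1, 1, 0, 0, 1, 0, 0, 1], 0, 1, 7, [1, 0, 1, 6], [0, 0, 1, 0, 0, 0, 0, 0, 0, 3], [0, 0, 0, 1, 0, 0, 2, 0, 0, 1], []⟩,
   ⟨[0, 0, 1, 1, 0, 1, 0, 0, 0, 0], 0, 1, 1, [1, 0, 1, 6], [0, 0, 0, 3, 0, 1], [0, 0, 2, 1, 0, 1], []⟩,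
   ⟨[0, 0, 1, 1, 0, 3, 0, 0, 0, 0], 0, 1, 7, [1, 0, 1, 6], [0, 0, 1, 0, 0, 1], [0, 0, 0, 1, 0, 1], []⟩,
   ⟨[0, 0, 1, 1, 1, 1, 1, 0, 0, 0], 0, 1, 7, [1, 0, 1, 6], [0, 0, 1, 0, 2, 1], [0, 0, 0, 1, 0, 1, 2], []⟩,
   ⟨[0, 0, 1, 1, 2, 0, 0, 1, 0, 0], 7, 1, 1, [2, 1, 5, 0], [0, 0, 0, 0, 1], [0, 0, 2, 3], []⟩,
   ⟨[0, 0, 1, 2, 0, 0, 2, 0, 0, 0], 0, 1, 7, [1, 1, 5, 0], [0, 0, 1], [0, 0, 0, 1, 0, 0, 2], []⟩,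
   ⟨[0, 0, 1, 2, 0, 1, 0, 1, 0, 0], 0, 1, 7, [1, 0, 1, 6], [0, 0, 1, 0, 0, 1, 0, 2], [0, 0, 0, 1, 0, 1, 0, 1], []⟩,
   ⟨[0, 0, 1, 2, 1, 0, 0, 0, 1, 0], 0, 1, 7, [1, 0, 1, 6], [0, 0, 1, 0, 2, 0, 0, 0, 1], [0, 0, 0, 1, 0, 0, 0, 0, 2], []⟩,
   ⟨[0, 0, 1, 3, 0, 0, 0, 0, 0, 1], 0, 1, 7, [1, 0, 1, 6], [0, 0, 1, 0, 0, 0, 0, 0, 0, 3], [0, 0, 0, 1, 0, 0, 0, 0, 0, 1], []⟩,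
   ⟨[0, 0, 1, 3, 1, 1, 0, 0, 0, 0], 0, 1, 7, [1, 0, 1, 6], [0, 0, 1, 0, 2, 1], [0, 0, 0, 1, 0, 1], []⟩,
   ⟨[0, 0, 2, 0, 0, 0, 0, 0, 0, 4], 0, 0, 9, [1, 0, 0, 10], [0, 0, 1], [0, 0, 0, 0, 0, 0, 0, 0, 0, 1], []⟩,
   ⟨[0, 0, 2, 0, 0, 0, 0, 0, 1, 2], 0, 0, 9, [1, 0, 0, 10], [0, 0, 1], [0, 0, 0, 0, 0, 0, 0, 0, 2, 1], []⟩,
   ⟨[0, 0, 2, 0, 0, 0, 0, 0, 2, 0], 0, 0, 1, [1, 0, 0, 10], [0, 0, 0, 0, 0, 0, 0, 0, 1], [0, 0, 2], []⟩,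
   ⟨[0, 0, 2, 0, 0, 0, 0, 1, 0, 1], 0, 1, 7, [1, 0, 1, 6], [0, 0, 1, 0, 0, 0, 0, 2], [0, 0, 0, 0, 0, 0, 0, 1, 0, 3], []⟩,
   ⟨[0, 0, 2, 0, 0, 0, 1, 0, 0, 0], 0, 0, 1, [1, 0, 0, 10], [0, 0, 0, 0, 0, 0, 2], [0, 0, 2], []⟩,
   ⟨[0, 0, 2, 0, 0, 2, 1, 0, 0, 0], 0, 1, 7, [1, 0, 1, 6], [0, 0, 1, 0, 0, 1], [0, 0, 0, 0, 0, 1, 2], []⟩,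
   ⟨[0, 0, 2, 0, 1, 0, 2, 0, 0, 0], 0, 1, 7, [1, 0, 1, 6], [0, 0, 1, 0, 2], [0, 0, 0, 0, 0, 0, 2], []⟩,
   ⟨[0, 0, 2, 0, 1, 1, 0, 1, 0, 0], 7, 1, 1, [2, 1, 5, 0], [0, 0, 0, 0, 1, 1], [0, 0, 2, 0, 0, 1], []⟩,
   ⟨[0, 0, 2, 0, 2, 0, 0, 0, 1, 0], 0, 1, 1, [1, 0, 1, 6], [0, 0, 0, 0, 1, 0, 0, 0, 2], [0, 0, 2], []⟩,
   ⟨[0, 0, 2, 0, 4, 0, 0, 0, 0, 0], 0, 1, 1, [1, 0, 1, 6], [0, 0, 0, 0, 1], [0, 0, 2], []⟩,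
   ⟨[0, 0, 2, 1, 0, 0, 1, 1, 0, 0], 0, 1, 7, [1, 0, 1, 6], [0, 0, 1, 0, 0, 0, 0, 2], [0, 0, 0, 1, 0, 0, 2, 1], []⟩,
   ⟨[0, 0, 2, 1, 0, 1, 0, 0, 1, 0], 0, 1, 7, [1, 0, 1, 6], [0, 0, 1, 0, 0, 1, 0, 0, 1], [0, 0, 0, 1, 0, 1, 0, 0, 2], []⟩,
   ⟨[0, 0, 2, 1, 1, 0, 0, 0, 0, 1], 0, 1, 7, [1, 0, 1, 6], [0, 0, 1, 0, 2], [0, 0, 0, 1, 0, 0, 0, 0, 0, 3], []⟩,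
   ⟨[0, 0, 2, 2, 0, 0, 0, 0, 0, 0], 0, 1, 7, [1, 0, 1, 6], [0, 0, 1], [0, 0, 0, 1], []⟩,
   ⟨[0, 0, 2, 2, 0, 2, 0, 0, 0, 0], 0, 1, 7, [1, 0, 1, 6], [0, 0, 1, 0, 0, 1], [0, 0, 0, 1, 0, 1], []⟩,
   ⟨[0, 0, 3, 0, 0, 0, 0, 2, 0, 0], 0, 2, 1, [2, 7, 0], [0, 0, 1], [0, 0, 0, 0, 0, 0, 0, 1], []⟩,
   ⟨[0, 0, 3, 0, 0, 0, 1, 0, 1, 0], 0, 1, 7, [1, 0, 1, 6], [0, 0, 1, 0, 0, 0, 0, 0, 1], [0, 0, 0, 0, 0, 0, 2, 0, 2], []⟩,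
   ⟨[0, 0, 3, 0, 0, 1, 0, 0, 0, 1], 0, 1, 7, [1, 0, 1, 6], [0, 0, 1, 0, 0, 1], [0, 0, 0, 0, 0, 1, 0, 0, 0, 3], []⟩,
   ⟨[0, 0, 3, 0, 1, 0, 0, 0, 0, 0], 0, 1, 1, [1, 1, 5, 0], [0, 0, 0, 0, 1], [0, 0, 2], []⟩,
   ⟨[0, 0, 3, 1, 0, 1, 1, 0, 0, 0], 0, 1, 7, [1, 0, 1, 6], [0, 0, 1, 0, 0, 1], [0, 0, 0, 1, 0, 1, 2], []⟩,
   ⟨[0, 0, 4, 0, 0, 0, 2, 0, 0, 0], 0, 1, 7, [1, 0, 1, 6], [0, 0, 1], [0, 0, 0, 0, 0, 0, 2], []⟩,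
   ⟨[0, 0, 5, 0, 0, 0, 0, 0, 0, 0], 0, 1, 7, [1, 1, 1, 6], [0, 0, 1], [], []⟩,
   ⟨[0, 1, 0, 0, 0, 0, 0, 0, 0, 1], 0, 0, 1, [1, 0, 0, 10], [0, 0, 0, 0, 0, 0, 0, 0, 0, 1], [0, 1, 0, 0, 0, 0, 0, 0, 0, 1], []⟩,
   ⟨[0, 1, 0, 0, 0, 0, 0, 3, 1, 0], 0, 1, 3, [1, 0, 1, 6], [0, 3, 0, 0, 0, 0, 0, 0, 1], [0, 1, 0, 0, 0, 0, 0, 1], []⟩,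
   ⟨[0, 1, 0, 0, 0, 0, 1, 1, 2, 0], 0, 1, 3, [1, 0, 1, 6], [0, 0, 0, 0, 0, 0, 2, 0, 1], [0, 3, 0, 0, 0, 0, 0, 1], []⟩,
   ⟨[0, 1, 0, 0, 0, 0, 1, 2, 0, 1], 1, 3, 3, [9], [0, 0, 0, 0, 0, 0, 1], [0, 0, 0, 0, 0, 0, 0, 1, 0, 7], []⟩,
   ⟨[0, 1, 0, 0, 0, 0, 2, 0, 1, 1], 0, 1, 9, [1, 0, 1, 6], [0, 2, 0, 0, 0, 0, 1], [0, 1, 0, 0, 0, 0, 0, 0, 2, 1], []⟩,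
   ⟨[0, 1, 0, 0, 0, 0, 2, 1, 0, 0], 0, 0, 3, [1, 0, 0, 10], [0, 0, 0, 0, 0, 0, 1], [0, 3, 0, 0, 0, 0, 0, 1], []⟩,
   ⟨[0, 1, 0, 0, 0, 1, 0, 0, 3, 0], 0, 1, 3, [1, 0, 1, 6], [0, 0, 0, 0, 0, 1, 0, 0, 1], [0, 3, 0, 0, 0, 1], []⟩,
   ⟨[0, 1, 0, 0, 0, 1, 0, 1, 1, 1], 9, 1, 3, [2, 1, 5, 0], [0, 0, 0, 0, 0, 1, 0, 0, 1], [0, 3, 0, 0, 0, 1, 0, 1], []⟩,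
   ⟨[0, 1, 0, 0, 0, 1, 0, 2, 0, 0], 0, 1, 3, [1, 0, 1, 6], [0, 3, 0, 0, 0, 1], [0, 1, 0, 0, 0, 1, 0, 1], []⟩,
   ⟨[0, 1, 0, 0, 0, 1, 1, 0, 0, 2], 0, 1, 9, [1, 0, 1, 6], [0, 2, 0, 0, 0, 1, 1], [0, 1, 0, 0, 0, 1, 0, 0, 0, 1], []⟩,
   ⟨[0, 1, 0, 0, 0, 1, 1, 0, 1, 0], 0, 1, 1, [1, 0, 1, 6], [0, 0, 0, 0, 0, 1, 1, 0, 2], [0, 1, 0, 0, 0, 1, 2], []⟩,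
   ⟨[0, 1, 0, 0, 0, 2, 0, 0, 0, 1], 0, 1, 1, [1, 0, 1, 6], [0, 0, 0, 0, 0, 1, 0, 0, 0, 2], [0, 1, 0, 0, 0, 1, 0, 0, 0, 1], []⟩,
   ⟨[0, 1, 0, 0, 1, 0, 0, 0, 2, 1], 9, 1, 3, [2, 1, 5, 0], [0, 0, 0, 0, 0, 0, 0, 0, 1], [0, 3, 0, 0, 2], []⟩,
   ⟨[0, 1, 0, 0, 1, 0, 0, 1, 0, 2], 0, 2, 1, [4, 7, 9], [0, 1, 0, 0, 1], [0, 1, 0, 0, 0, 0, 0, 1], [0, 0, 0, 0, 0, 0, 0, 0, 0, 1]⟩,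
   ⟨[0, 1, 0, 0, 1, 0, 0, 1, 1, 0], 0, 1, 1, [1, 0, 1, 6], [0, 0, 0, 0, 1, 0, 0, 1, 2], [0, 1, 0, 0, 0, 0, 0, 3], []⟩,
   ⟨[0, 1, 0, 0, 1, 0, 1, 0, 0, 1], 0, 1, 1, [1, 0, 1, 6], [0, 0, 0, 0, 1, 0, 1, 0, 0, 2], [0, 1, 0, 0, 0, 0, 2, 0, 0, 1], []⟩,
   ⟨[0, 1, 0, 0, 1, 1, 0, 0, 0, 0], 0, 1, 1, [1, 1, 5, 0], [0, 0, 0, 0, 1], [0, 1, 0, 0, 0, 5], []⟩,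
   ⟨[0, 1, 0, 0, 1, 3, 0, 0, 0, 0], 0, 1, 1, [1, 0, 1, 6], [0, 0, 0, 0, 1, 1], [0, 1, 0, 0, 0, 1], []⟩,
   ⟨[0, 1, 0, 0, 2, 1, 1, 0, 0, 0], 0, 1, 1, [1, 0, 1, 6], [0, 0, 0, 0, 1, 1, 1], [0, 1, 0, 0, 0, 1, 2], []⟩,
   ⟨[0, 1, 0, 0, 3, 0, 0, 1, 0, 0], 0, 1, 1, [1, 0, 1, 6], [0, 0, 0, 0, 1, 0, 0, 1], [0, 1, 0, 0, 0, 0, 0, 3], []⟩,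
   ⟨[0, 1, 0, 1, 0, 0, 0, 0, 1, 2], 3, 1, 9, [2, 1, 5, 0], [0, 2], [0, 1, 0, 0, 0, 0, 0, 0, 2, 1], []⟩,
   ⟨[0, 1, 0, 1, 0, 0, 0, 0, 2, 0], 0, 0, 1, [1, 0, 0, 10], [0, 0, 0, 0, 0, 0, 0, 0, 1], [0, 1, 0, 3], []⟩,
   ⟨[0, 1, 0, 1, 0, 0, 0, 1, 0, 1], 1, 3, 3, [9], [0, 0, 0, 1], [0, 0, 0, 1, 0, 0, 0, 1, 0, 7], []⟩,
   ⟨[0, 1, 0, 1, 0, 0, 1, 0, 0, 0], 0, 0, 1, [1, 0, 0, 10], [0, 0, 0, 0, 0, 0, 2], [0, 1, 0, 3], []⟩,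
   ⟨[0, 1, 0, 1, 0, 2, 1, 0, 0, 0], 1, 1, 7, [2, 1, 5, 0], [0, 0, 0, 0, 0, 1], [0, 0, 0, 1, 0, 1, 2], []⟩,
   ⟨[0, 1, 0, 1, 1, 0, 2, 0, 0, 0], 1, 1, 7, [2, 1, 5, 0], [0, 0, 0, 0, 2], [0, 0, 0, 1, 0, 0, 2], []⟩,
   ⟨[0, 1, 0, 1, 1, 1, 0, 1, 0, 0], 7, 1, 1, [2, 1, 5, 0], [0, 0, 0, 0, 1, 1], [0, 1, 0, 3, 0, 1], []⟩,
   ⟨[0, 1, 0, 1, 2, 0, 0, 0, 1, 0], 0, 1, 1, [1, 0, 1, 6], [0, 0, 0, 0, 1, 0, 0, 0, 2], [0, 1, 0, 3], []⟩,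
   ⟨[0, 1, 0, 2, 0, 0, 1, 1, 0, 0], 1, 1, 7, [2, 1, 5, 0], [0, 0, 0, 0, 0, 0, 0, 2], [0, 0, 0, 1, 0, 0, 2, 1], []⟩,
   ⟨[0, 1, 0, 2, 0, 1, 0, 0, 1, 0], 1, 1, 7, [2, 1, 5, 0], [0, 0, 0, 0, 0, 1, 0, 0, 1], [0, 0, 0, 1, 0, 1, 0, 0, 2], []⟩,
   ⟨[0, 1, 0, 2, 1, 0, 0, 0, 0, 1], 1, 1, 7, [2, 1, 5, 0], [0, 0, 0, 0, 2], [0, 0, 0, 1, 0, 0, 0, 0, 0, 3], []⟩,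
   ⟨[0, 1, 0, 3, 0, 0, 0, 0, 0, 0], 0, 0, 7, [1, 0, 0, 10], [0, 2], [0, 1, 0, 1], []⟩,
   ⟨[0, 1, 0, 3, 0, 2, 0, 0, 0, 0], 1, 1, 7, [2, 1, 5, 0], [0, 0, 0, 0, 0, 1], [0, 0, 0, 1, 0, 1], []⟩,
   ⟨[0, 1, 1, 0, 0, 0, 0, 0, 0, 3], 0, 0, 9, [1, 0, 0, 10], [0, 1, 1], [0, 1, 0, 0, 0, 0, 0, 0, 0, 1], []⟩,
   ⟨[0, 1, 1, 0, 0, 0, 0, 0, 1, 1], 0, 0, 1, [1, 0, 0, 10], [0, 0, 0, 0, 0, 0, 0, 0, 1, 1], [0, 1, 2, 0, 0, 0, 0, 0, 0, 1], []⟩,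
   ⟨[0, 1, 1, 0, 0, 0, 0, 1, 0, 0], 0, 0, 1, [1, 0, 0, 10], [0, 0, 0, 0, 0, 0, 0, 2], [0, 1, 2, 0, 0, 0, 0, 1], []⟩,
   ⟨[0, 1, 1, 0, 0, 1, 2, 0, 0, 0], 1, 1, 7, [2, 1, 5, 0], [0, 0, 1, 0, 0, 1], [0, 0, 0, 0, 0, 1, 2], []⟩,
   ⟨[0, 1, 1, 0, 0, 2, 0, 1, 0, 0], 7, 1, 1, [2, 1, 5, 0], [0, 0, 0, 0, 0, 1], [0, 1, 2, 0, 0, 1], []⟩,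
   ⟨[0, 1, 1, 0, 1, 0, 1, 1, 0, 0], 7, 1, 1, [2, 1, 5, 0], [0, 0, 0, 0, 1, 0, 1], [0, 1, 2, 0, 0, 0, 2], []⟩,
   ⟨[0, 1, 1, 0, 1, 1, 0, 0, 1, 0], 0, 1, 1, [1, 0, 1, 6], [0, 0, 0, 0, 1, 1, 0, 0, 2], [0, 1, 2, 0, 0, 1], []⟩,
   ⟨[0, 1, 1, 0, 2, 0, 0, 0, 0, 1], 0, 1, 1, [1, 0, 1, 6], [0, 0, 0, 0, 1, 0, 0, 0, 0, 2], [0, 1, 2, 0, 0, 0, 0, 0, 0, 1], []⟩,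
   ⟨[0, 1, 1, 0, 3, 1, 0, 0, 0, 0], 0, 1, 1, [1, 0, 1, 6], [0, 0, 0, 0, 1, 1], [0, 1, 2, 0, 0, 1], []⟩,
   ⟨[0, 1, 1, 1, 0, 0, 0, 2, 0, 0], 0, 2, 1, [1, 2, 7], [0, 1, 0, 1], [0, 0, 1, 1], [0, 0, 0, 0, 0, 0, 0, 1]⟩,
   ⟨[0, 1, 1, 1, 0, 0, 1, 0, 1, 0], 1, 1, 7, [2, 1, 5, 0], [0, 0, 1, 0, 0, 0, 0, 0, 1], [0, 0, 0, 1, 0, 0, 2, 0, 2], []⟩,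
   ⟨[0, 1, 1, 1, 0, 1, 0, 0, 0, 1], 1, 1, 7, [2, 1, 5, 0], [0, 0, 1, 0, 0, 1], [0, 0, 0, 1, 0, 1, 0, 0, 0, 3], []⟩,
   ⟨[0, 1, 1, 1, 1, 0, 0, 0, 0, 0], 0, 1, 1, [1, 0, 1, 6], [0, 0, 3, 0, 1], [0, 1, 0, 3], []⟩,
   ⟨[0, 1, 1, 2, 0, 1, 1, 0, 0, 0], 1, 1, 7, [2, 1, 5, 0], [0, 0, 1, 0, 0, 1], [0, 0, 0, 1, 0, 1, 2], []⟩,
   ⟨[0, 1, 2, 0, 0, 0, 0, 1, 1, 0], 7, 1, 1, [2, 1, 5, 0], [0, 0, 0, 0, 0, 0, 0, 0, 2], [0, 1, 2], []⟩,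
   ⟨[0, 1, 2, 0, 0, 0, 1, 0, 0, 1], 1, 1, 7, [2, 1, 5, 0], [0, 0, 1], [0, 0, 0, 0, 0, 0, 2, 0, 0, 3], []⟩,
   ⟨[0, 1, 2, 0, 0, 1, 0, 0, 0, 0], 0, 1, 1, [1, 1, 5, 0], [0, 0, 0, 0, 0, 1], [0, 1, 2, 0, 0, 1], []⟩,
   ⟨[0, 1, 3, 1, 0, 0, 0, 0, 0, 0], 0, 1, 7, [1, 0, 1, 6], [0, 1, 1], [0, 3, 0, 1], []⟩,
   ⟨[0, 2, 0, 0, 0, 0, 0, 0, 0, 2], 0, 0, 1, [1, 0, 0, 10], [0, 0, 0, 0, 0, 0, 0, 0, 0, 1], [0, 1, 0, 0, 0, 0, 0, 0, 0, 1], []⟩,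
   ⟨[0, 2, 0, 0, 0, 0, 0, 0, 1, 0], 0, 0, 1, [1, 0, 0, 10], [0, 0, 0, 0, 0, 0, 0, 0, 1], [0, 1], []⟩,
   ⟨[0, 2, 0, 0, 0, 0, 3, 0, 0, 0], 0, 2, 1, [6, 1, 0], [0, 0, 0, 0, 0, 0, 1], [0, 1], []⟩,
   ⟨[0, 2, 0, 0, 0, 1, 1, 1, 0, 0], 7, 1, 1, [2, 1, 5, 0], [0, 0, 0, 0, 0, 1, 1], [0, 1, 0, 0, 0, 1, 2], []⟩,
   ⟨[0, 2, 0, 0, 0, 2, 0, 0, 1, 0], 0, 1, 1, [1, 0, 1, 6], [0, 0, 0, 0, 0, 1, 0, 0, 2], [0, 1, 0, 0, 0, 1], []⟩,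
   ⟨[0, 2, 0, 0, 1, 0, 0, 2, 0, 0], 0, 2, 1, [1, 2, 7], [0, 1], [0, 0, 0, 0, 2], [0, 0, 0, 0, 0, 0, 0, 1]⟩,
   ⟨[0, 2, 0, 0, 1, 0, 1, 0, 1, 0], 0, 1, 1, [1, 0, 1, 6], [0, 0, 0, 0, 1, 0, 1, 0, 2], [0, 1, 0, 0, 0, 0, 2], []⟩,
   ⟨[0, 2, 0, 0, 1, 1, 0, 0, 0, 1], 0, 1, 1, [1, 0, 1, 6], [0, 0, 0, 0, 1, 1, 0, 0, 0, 2], [0, 1, 0, 0, 0, 1, 0, 0, 0, 1], []⟩,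
   ⟨[0, 2, 0, 0, 2, 0, 0, 0, 0, 0], 0, 1, 1, [1, 0, 1, 6], [0, 0, 0, 0, 1], [0, 1], []⟩,
   ⟨[0, 2, 0, 0, 2, 2, 0, 0, 0, 0], 0, 1, 1, [1, 0, 1, 6], [0, 0, 0, 0, 1, 1], [0, 1, 0, 0, 0, 1], []⟩,
   ⟨[0, 2, 0, 1, 0, 0, 0, 1, 1, 0], 3, 3, 1, [7], [0, 0, 0, 0, 0, 0, 0, 0, 1], [0, 1, 0, 0, 0, 0, 0, 7], []⟩,
   ⟨[0, 2, 0, 1, 0, 0, 1, 0, 0, 1], 0, 2, 1, [1, 3, 6], [0, 1], [0, 0, 0, 1, 0, 0, 0, 0, 0, 1], [0, 0, 0, 0, 0, 0, 1, 0, 0, 1]⟩,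
   ⟨[0, 2, 0, 1, 0, 1, 0, 0, 0, 0], 0, 1, 1, [1, 0, 1, 6], [0, 0, 0, 3, 0, 1], [0, 1, 0, 1, 0, 1], []⟩,
   ⟨[0, 2, 0, 2, 0, 0, 2, 0, 0, 0], 0, 2, 1, [1, 3, 6], [0, 1], [0, 0, 0, 1], [0, 0, 0, 0, 0, 0, 1]⟩,
   ⟨[0, 2, 1, 0, 0, 0, 0, 0, 2, 0], 0, 0, 1, [1, 0, 0, 10], [0, 0, 0, 0, 0, 0, 0, 0, 1], [0, 1, 2], []⟩,
   ⟨[0, 2, 1, 0, 0, 0, 0, 1, 0, 1], 7, 1, 1, [2, 1, 5, 0], [0, 0, 0, 0, 0, 0, 0, 0, 0, 2], [0, 1, 2, 0, 0, 0, 0, 0, 0, 1], []⟩,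
   ⟨[0, 2, 1, 0, 0, 0, 1, 0, 0, 0], 0, 0, 1, [1, 0, 0, 10], [0, 0, 0, 0, 0, 0, 2], [0, 1, 2], []⟩,
   ⟨[0, 2, 1, 0, 1, 1, 0, 1, 0, 0], 7, 1, 1, [2, 1, 5, 0], [0, 0, 0, 0, 1, 1], [0, 1, 2, 0, 0, 1], []⟩,
   ⟨[0, 2, 1, 2, 0, 0, 0, 0, 0, 0], 0, 2, 1, [1, 3, 6], [0, 1], [0, 0, 0, 1], [0, 0, 2]⟩,
   ⟨[0, 2, 2, 0, 0, 0, 0, 2, 0, 0], 0, 2, 1, [1, 2, 7], [0, 1], [0, 0, 1], [0, 0, 0, 0, 0, 0, 0, 1]⟩,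
   ⟨[0, 2, 2, 0, 1, 0, 0, 0, 0, 0], 0, 1, 1, [1, 1, 5, 0], [0, 0, 0, 0, 1], [0, 1, 2], []⟩,
   ⟨[0, 3, 0, 0, 0, 0, 0, 0, 1, 1], 0, 0, 1, [1, 0, 0, 10], [0, 0, 0, 0, 0, 0, 0, 0, 1, 1], [0, 1, 0, 0, 0, 0, 0, 0, 0, 1], []⟩,
   ⟨[0, 3, 0, 0, 0, 0, 0, 1, 0, 0], 0, 0, 1, [1, 0, 0, 10], [0, 0, 0, 0, 0, 0, 0, 2], [0, 1, 0, 0, 0, 0, 0, 1], []⟩,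
   ⟨[0, 3, 0, 0, 0, 2, 0, 1, 0, 0], 7, 1, 1, [2, 1, 5, 0], [0, 0, 0, 0, 0, 1], [0, 1, 0, 0, 0, 1], []⟩,
   ⟨[0, 3, 0, 0, 1, 1, 0, 0, 1, 0], 0, 1, 1, [1, 0, 1, 6], [0, 0, 0, 0, 1, 1, 0, 0, 2], [0, 1, 0, 0, 0, 1], []⟩,
   ⟨[0, 3, 0, 1, 1, 0, 0, 0, 0, 0], 0, 1, 1, [1, 0, 1, 6], [0, 0, 0, 3, 1], [0, 1, 0, 1], []⟩,
   ⟨[0, 3, 1, 0, 0, 1, 0, 0, 0, 0], 0, 1, 1, [1, 0, 1, 6], [0, 0, 3, 0, 0, 1], [0, 1, 0, 0, 0, 1], []⟩,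
   ⟨[0, 4, 0, 0, 0, 0, 0, 0, 2, 0], 0, 0, 1, [1, 0, 0, 10], [0, 0, 0, 0, 0, 0, 0, 0, 1], [0, 1], []⟩,
   ⟨[0, 4, 0, 0, 0, 0, 1, 0, 0, 0], 0, 0, 1, [1, 0, 0, 10], [0, 0, 0, 0, 0, 0, 2], [0, 1], []⟩,
   ⟨[0, 5, 0, 0, 0, 1, 0, 0, 0, 0], 0, 1, 1, [1, 1, 5, 0], [0, 0, 0, 0, 0, 1], [0, 1, 0, 0, 0, 1], []⟩]

theorem cs10_ok : ∀ c ∈ cs10, c.ok 10 := by decide +kernel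

end Pool.Agent.Helper43.V7
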