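import Pool.Agent.Helper75.WC.CurveCert

/-! Project V7. Certificates for the types `n = 9`, `(1, 3, 4 ^ 2, 6)` and `(1, 2, 4 ^ 2, 7)`. -/

set_option autoImplicit false

namespace Pool.Agent.Helper43.V7

open Pool.Agent.Helper75.WC

/-- `w ^ 9 = L1 L3 ^ 3 Q4 ^ 4 L6 ^ 6`: the line `L3` at infinity, `L6` the axis -/
def c9a : Cert :=
  { L := [0, 1, 0, 1, 2, 0, 1, 0, 0], e0 := 3, kind := 3, t := 7, q := [6], u := [0, 1]
    v := [0, 0, 0, 0, 1, 0, 6], k := [] }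

/-- `w ^ 9 = L1 L2 ^ 2 Q4 ^ 4 L7 ^ 7`: the line `L2` at infinity, `L7` the axis -/
def c9b : Cert :=
  { L := [0, 1, 1, 0, 2, 0, 0, 1, 0], e0 := 2, kind := 3, t := 7, q := [7], u := [0, 1]
    v := [0, 0, 0, 0, 1, 0, 0, 4], k := [] }

theorem c9a_ok : c9a.ok 9 := by decide

theorem c9b_ok : c9b.ok 9 := by decide

end Pool.Agent.Helper43.V7
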